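import Pool.Agent.V8H26.ZC.Loc

/-!
# The completions of `k(t)`
-/

set_option autoImplicit false
set_option linter.all false

open Polynomial IsDedekindDomain
open scoped Classical

namespace Pool.Agent.V8H26.ZC

open Pool.Agent.TH115.GD Pool.Agent.H341R2.Sharp Finset Pool.Agent.Y164.PS
open Pool.Agent.W309.TD (isSquare_coe sq_of_nonsq IsSquare.of_mul_left')

section

variable {k F : Type} [Field k] [Fintype k] [DecidableEq k] [Field F] [Algebra k[X] F]
  [IsFractionRing k[X] F]

theorem exists_gn (v : HeightOneSpectrum k[X]) : ∃ π : k[X], π.Monic ∧ Irreducible π ∧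
    ∀ p, p ∈ v.asIdeal ↔ π ∣ p := by
  obtain ⟨π, h1, h2⟩ := exists_gen v
  have h0 : π.leadingCoeff ≠ 0 := leadingCoeff_ne_zero.2 h1.ne_zero
  have hu : IsUnit (C π.leadingCoeff⁻¹) := isUnit_C.2 (isUnit_iff_ne_zero.2 (inv_ne_zero h0))
  have ha : Associated π (π * C π.leadingCoeff⁻¹) := by
    obtain ⟨u, hu'⟩ := hu
    exact ⟨u, by rw [hu']⟩
  exact ⟨π * C π.leadingCoeff⁻¹, monic_mul_leadingCoeff_inv h1.ne_zero, ha.irreducible h1,
    fun p => by rw [h2, ha.dvd_iff_dvd_left]⟩

/-- the monic generator of a place -/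
noncomputable def gn (v : HeightOneSpectrum k[X]) : k[X] := (exists_gn v).choose

theorem gn_monic (v : HeightOneSpectrum k[X]) : (gn v).Monic := (exists_gn v).choose_spec.1

theorem gn_irr (v : HeightOneSpectrum k[X]) : Irreducible (gn v) := (exists_gn v).choose_spec.2.1

theorem mem_gn (v : HeightOneSpectrum k[X]) (p : k[X]) : p ∈ v.asIdeal ↔ gn v ∣ p :=
  (exists_gn v).choose_spec.2.2 p

/-- the place of a monic irreducible polynomial -/
theorem gn_plK {π : k[X]} (hm : π.Monic) (hπ : Irreducible π) : gn (plK hπ) = π := by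
  have h1 : π ∣ gn (plK hπ) := (mem_plK hπ).1 ((mem_gn _ _).2 dvd_rfl)
  exact (eq_of_monic_of_associated hm (gn_monic _) (hπ.associated_of_dvd (gn_irr _) h1)).symm

theorem gn_inj {v v' : HeightOneSpectrum k[X]} (h : gn v = gn v') : v = v' := by
  apply HeightOneSpectrum.ext
  ext p
  rw [mem_gn, mem_gn, h]

variable (v : HeightOneSpectrum k[X])

/-- a unit of the completion is the class of a polynomial -/
theorem exists_unit_rep (h2 : (2 : k) ≠ 0) {x : Comp k[X] F v} (hx : wv v x = 1) :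
    ∃ g : k[X], ¬ gn v ∣ g ∧ SqEq x (algebraMap F (Comp k[X] F v) (algebraMap k[X] F g)) := by
  obtain ⟨f, hf⟩ := dense_F v x (g := (1 : F)) one_ne_zero
  rw [map_one] at hf
  have hwf : wv v (algebraMap F (Comp k[X] F v) f) = 1 := by
    have e : algebraMap F (Comp k[X] F v) f = x - (x - algebraMap F (Comp k[X] F v) f) := by ring
    rw [e, sub_eq_add_neg, Valuation.map_add_eq_of_lt_left, hx]
    rw [Valuation.map_neg, hx]
    exact hf
  have h1 : SqEq x (algebraMap F (Comp k[X] F v) f) := near (hensK v h2) (by rw [hwf]; exact hf)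
  rw [wv_coe] at hwf
  obtain ⟨n, d, hrel, hfd⟩ := IsFractionRing.exists_reduced_fraction (A := k[X]) f
  have hd0 : (d : k[X]) ≠ 0 := nonZeroDivisors.ne_zero d.2
  have hdF : algebraMap k[X] F d ≠ 0 := by simpa using hd0
  have hff : f * algebraMap k[X] F d = algebraMap k[X] F n := by
    rw [← hfd]
    exact IsLocalization.mk'_spec F n d
  have hπd : ¬ gn v ∣ (d : k[X]) := by
    intro hdv
    have hnd : ¬ gn v ∣ n := fun hn => (gn_irr v).not_isUnit (hrel hn hdv)
    have h1 := congrArg (v.valuation F) hff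
    rw [map_mul] at h1
    have h3 : v.valuation F (algebraMap k[X] F n) = 1 := by rw [valK_one, mem_gn]; exact hnd
    have h4 : v.valuation F (algebraMap k[X] F d) < 1 := by rw [valK_lt, mem_gn]; exact hdv
    rw [h3, hwf, one_mul] at h1
    exact h4.ne h1
  have hπn : ¬ gn v ∣ n := by
    intro hn
    have h1 := congrArg (v.valuation F) hff
    rw [map_mul, hwf, one_mul] at h1
    have h3 : v.valuation F (algebraMap k[X] F n) < 1 := by rw [valK_lt, mem_gn]; exact hn
    have h4 : v.valuation F (algebraMap k[X] F d) = 1 := by rw [valK_one, mem_gn]; exact hπd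
    rw [h4] at h1
    exact h3.ne h1.symm
  refine ⟨n * d, ?_, h1.trans ?_⟩
  · intro h
    rcases (gn_irr v).prime.dvd_or_dvd h with h | h
    · exact hπn h
    · exact hπd h
  · have hj : algebraMap F (Comp k[X] F v) (algebraMap k[X] F d) ≠ 0 := (_root_.map_ne_zero _).2 hdF
    refine ⟨(algebraMap F (Comp k[X] F v) (algebraMap k[X] F d))⁻¹, inv_ne_zero hj, ?_⟩
    rw [map_mul (algebraMap k[X] F), ← hff, map_mul, map_mul]
    field_simp

theorem wv_gn : ¬ IsSquare (wv v (algebraMap F (Comp k[X] F v) (algebraMap k[X] F (gn v)))) := by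
  have h1 : v.valuation F (algebraMap k[X] F (gn v)) = WithZero.exp (-1 : ℤ) := by
    rw [v.valuation_of_algebraMap]
    apply HeightOneSpectrum.intValuation_singleton v (gn_irr v).ne_zero
    ext p
    rw [mem_gn, Ideal.mem_span_singleton]
  rw [wv_coe, h1, isSquare_exp]
  decide

/-- an element of even valuation is the class of a polynomial -/
theorem exists_even_rep (h2 : (2 : k) ≠ 0) {x : Comp k[X] F v} (hx0 : x ≠ 0)
    (hx : IsSquare (wv v x)) :
    ∃ g : k[X], ¬ gn v ∣ g ∧ SqEq x (algebraMap F (Comp k[X] F v) (algebraMap k[X] F g)) := by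
  have hw : wv v x ≠ 0 := (Valuation.ne_zero_iff _).2 hx0
  have h1 : v.valuation F (algebraMap k[X] F (gn v)) = WithZero.exp (-1 : ℤ) := by
    rw [v.valuation_of_algebraMap]
    apply HeightOneSpectrum.intValuation_singleton v (gn_irr v).ne_zero
    ext p
    rw [mem_gn, Ideal.mem_span_singleton]
  set p := algebraMap F (Comp k[X] F v) (algebraMap k[X] F (gn v)) with hp
  have hp0 : p ≠ 0 := by
    rw [hp]
    have : algebraMap k[X] F (gn v) ≠ 0 := by simpa using (gn_irr v).ne_zero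
    exact (_root_.map_ne_zero _).2 this
  have hwp : wv v p = WithZero.exp (-1 : ℤ) := by rw [hp, wv_coe, h1]
  have e1 : wv v x = WithZero.exp (WithZero.log (wv v x)) := (WithZero.exp_log hw).symm
  rw [e1, isSquare_exp] at hx
  obtain ⟨m, hm⟩ := hx
  have h3 : wv v ((p ^ m) ^ 2 * x) = 1 := by
    rw [map_mul, e1, hm, map_pow, map_zpow₀, hwp, ← WithZero.exp_zsmul, ← WithZero.exp_nsmul,
      ← WithZero.exp_add, ← WithZero.exp_zero]
    congr 1
    simp
    ring
  obtain ⟨g, hg, hs⟩ := exists_unit_rep v h2 h3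
  refine ⟨g, hg, SqEq.trans ?_ hs⟩
  have h4 : p ^ m ≠ 0 := zpow_ne_zero m hp0
  exact ⟨(p ^ m)⁻¹, inv_ne_zero h4, by field_simp⟩

theorem isSq_of_SqEq {L : Type} [Field L] {x y : L} (h : SqEq x y) : IsSquare x ↔ IsSquare y := by
  obtain ⟨c, hc, rfl⟩ := h
  exact isSq_mul_iff (pow_ne_zero 2 hc) ⟨c, by ring⟩

/-- squares and the symbol -/
theorem isSq_poly (hk : ringChar k ≠ 2) {g : k[X]} (hg : ¬ gn v ∣ g) :
    IsSquare (algebraMap F (Comp k[X] F v) (algebraMap k[X] F g)) ↔ L g (gn v) = 0 := by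
  have h2k : (2 : k) ≠ 0 := Ring.two_ne_zero hk
  rw [L_eq_zero_iff hk (gn_monic v) (gn_irr v) hg]
  constructor
  · intro h
    exact sqmod_of_loc v (gn_irr v) (mem_gn v) h
  · rintro ⟨z, hz⟩
    have h1 : ¬ gn v ∣ (1 : k[X]) := fun h => (gn_irr v).not_isUnit (isUnit_of_dvd_one h)
    have h3 := Pool.Agent.V8H26.XA.sqEq_loc (K := F) h2k v (mem_gn v) hg h1 (z := z) (by rwa [mul_one])
    rw [isSq_of_SqEq h3, map_one, map_one]
    exact ⟨1, by ring⟩

theorem lf_comp (hk : ringChar k ≠ 2) (hm : IsSquare (-1 : k)) : LF (wv v (F := F)) := by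
  have h2k : (2 : k) ≠ 0 := Ring.two_ne_zero hk
  refine ⟨hensK v h2k, ?_, ?_, ?_⟩
  · obtain ⟨i, hi⟩ := hm
    refine ⟨algebraMap F (Comp k[X] F v) (algebraMap k[X] F (C i)), ?_⟩
    rw [← map_mul, ← map_mul, ← C_mul, ← hi]
    simp
  · have h1 : (2 : Comp k[X] F v) = algebraMap F (Comp k[X] F v) (algebraMap k[X] F (C 2)) := by
      rw [map_ofNat, map_ofNat, map_ofNat]
    rw [h1]
    have h3 : algebraMap k[X] F (C 2) ≠ 0 := by
      rw [Ne, IsFractionRing.to_map_eq_zero_iff]
      exact C_ne_zero.2 h2k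
    exact (_root_.map_ne_zero _).2 h3
  · intro x y hx hy ex ey nx ny
    obtain ⟨g, hg, sg⟩ := exists_even_rep v h2k hx ex
    obtain ⟨g', hg', sg'⟩ := exists_even_rep v h2k hy ey
    rw [isSq_of_SqEq sg, isSq_poly v hk hg] at nx
    rw [isSq_of_SqEq sg', isSq_poly v hk hg'] at ny
    have hF : ∀ a : F2, a ≠ 0 → a = 1 := by decide
    have hgg : ¬ gn v ∣ g * g' := fun h => by
      rcases (gn_irr v).prime.dvd_or_dvd h with h | h
      · exact hg h
      · exact hg' h
    have g0 : g ≠ 0 := by rintro rfl; exact hg (dvd_zero _)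
    have g0' : g' ≠ 0 := by rintro rfl; exact hg' (dvd_zero _)
    have h3 : L (g * g') (gn v) = 0 := by
      rw [L_mul_left (gn_irr v).ne_zero g0 g0' (coprime_of_not_dvd (gn_irr v) hg)
        (coprime_of_not_dvd (gn_irr v) hg'), hF _ nx, hF _ ny]
      decide
    rw [isSq_of_SqEq (sg.mul sg'), ← map_mul, ← map_mul, isSq_poly v hk hgg]
    exact h3

end

end Pool.Agent.V8H26.ZC
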