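import Pool.Agent.TH115.SK.Defs

/-!
# Zero-cycles modulo 2 on elliptic curves over `k(t)` and the Brauer-Manin pairing: definitions

`K = k(t)`, and `E : y ^ 2 = x (x - α) (x - β)` is an elliptic curve over `K`; `L` denotes `K` or the
completion of `K` at a place. By the theorem of Riemann-Roch every zero-cycle of degree `n` on `E`
over `L` is rationally equivalent to `(P) + (n - 1) (O)` for exactly one point `P` of `E` over `L`;
so the group of zero-cycles modulo rational equivalence is `ℤ × E(L)`.

The subgroup `Br(E)[2]` of the Brauer group of `E` over `K` is the group of the classes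

`(c, c') + (x, e) + (x - α, f)`, `c, c', e, f` in `K*`

(sums of quaternion algebras): `Br(K)[2]` consists of the classes `(c, c')`, and `Br(E)` is the direct
sum of `Br(K)` and `H ^ 1(K, E)`, whose elements of order two come from `H ^ 1(K, E[2])`, the group of
the pairs `(e, f)` modulo squares.
-/

set_option autoImplicit false
set_option linter.all false

open Polynomial IsDedekindDomain
open scoped Classical

namespace Pool.Agent.V8H26.ZC

open Pool.Agent.TH115.GD

/-- The quaternion algebra `(u, e)` over the field `L` is split: the conic `z ^ 2 = u x ^ 2 + e y ^ 2`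
has a point over `L`. -/
def Splits {L : Type} [Field L] (u e : L) : Prop :=
  ∃ x y z : L, (x ≠ 0 ∨ y ≠ 0 ∨ z ≠ 0) ∧ z ^ 2 = u * x ^ 2 + e * y ^ 2

/-- The invariant, in `(1 / 2) ℤ / ℤ = ℤ / 2`, of the quaternion algebra `(u, e)` over a local
field. -/
noncomputable def inv {L : Type} [Field L] (u e : L) : ZMod 2 := if Splits u e then 0 else 1

section local'

variable {K : Type} [Field K] (α β : K)

/-- The zero-cycles on `E : y ^ 2 = x (x - α) (x - β)` over `L` modulo rational equivalence: `(n, P)`
is the class of `(P) + (n - 1) (O)`. -/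
abbrev CH0 (L : Type) [Field L] [Algebra K L] : Type := ℤ × Pt (crv α β) L

/-- The zero-cycles modulo rational equivalence and modulo 2. -/
abbrev CH0ModTwo (L : Type) [Field L] [Algebra K L] : Type :=
  CH0 α β L ⧸ (nsmulAddMonoidHom (α := CH0 α β L) 2).range

/-- The class `(c, c') + (x, e) + (x - α, f)` in the Brauer group of `E`. -/
structure BrauerClass (K : Type) [Field K] where
  c : Kˣ
  c' : Kˣ
  e : Kˣ
  f : Kˣ

/-- The local invariant of the value of a class of the Brauer group at a zero-cycle. The functions
`x` and `x - α` have even divisors; their values modulo squares are `d0` and `d1` (`1` at the point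
`O` at infinity, `α β` for `x` at `(0, 0)`, `α (α - β)` for `x - α` at `(α, 0)`). -/
noncomputable def pairing (L : Type) [Field L] [Algebra K L] (A : BrauerClass K)
    (z : CH0 α β L) : ZMod 2 :=
  (z.1 : ZMod 2) * inv (algebraMap K L A.c) (algebraMap K L A.c') +
    inv (d0 (algebraMap K L α) (algebraMap K L β) z.2) (algebraMap K L A.e) +
    inv (d1 (algebraMap K L α) (algebraMap K L β) z.2) (algebraMap K L A.f)

end local'

section global'

variable (k : Type) {K : Type} [Field k] [Field K] [Algebra k[X] K] [IsFractionRing k[X] K]
  (α β : K)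

/-- The families of zero-cycles over the completions of `K = k(t)` at all places: the maximal ideals
`v` of `k[t]` and the place `t = ∞`. -/
structure Adelic where
  fin : ∀ v : HeightOneSpectrum k[X], CH0 α β (Comp k[X] K v)
  inf : CH0 α β (CompInf k K)

variable {k α β}

/-- The support of the sum of the local invariants over the finite places. -/
def Adelic.support (z : Adelic k α β) (A : BrauerClass K) : Set (HeightOneSpectrum k[X]) :=
  {v | pairing α β (Comp k[X] K v) A (z.fin v) ≠ 0}

/-- The Brauer-Manin pairing: the sum of the local invariants. -/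
noncomputable def Adelic.pairing (z : Adelic k α β) (A : BrauerClass K) : ZMod 2 :=
  ∑ᶠ v : HeightOneSpectrum k[X], ZC.pairing α β (Comp k[X] K v) A (z.fin v) +
    ZC.pairing α β (CompInf k K) A z.inf

/-- The class of a family modulo 2. -/
noncomputable def Adelic.cls (z : Adelic k α β) :
    (∀ v : HeightOneSpectrum k[X], CH0ModTwo α β (Comp k[X] K v)) × CH0ModTwo α β (CompInf k K) :=
  (fun v => (z.fin v : CH0ModTwo α β (Comp k[X] K v)), (z.inf : CH0ModTwo α β (CompInf k K)))

/-- The family of a zero-cycle over `K`. -/
noncomputable def diagonal (k : Type) {K : Type} [Field k] [Field K] [Algebra k[X] K]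
    [IsFractionRing k[X] K] {α β : K} (z : CH0 α β K) : Adelic k α β where
  fin v := (z.1, act (crv α β) (Algebra.ofId K (Comp k[X] K v)) z.2)
  inf := (z.1, act (crv α β) (Algebra.ofId K (CompInf k K)) z.2)

variable (k α β)

/-- The kernel of the map `∏ v, CH₀(E over K_v) / 2 → Hom(Br(E)[2], ℚ / ℤ)`. -/
def Kernel : Set ((∀ v : HeightOneSpectrum k[X], CH0ModTwo α β (Comp k[X] K v)) ×
    CH0ModTwo α β (CompInf k K)) :=
  {x | ∃ z : Adelic k α β, (∀ A, z.pairing A = 0) ∧ x = z.cls}

/-- The image of the map `CH₀(E) / 2 → ∏ v, CH₀(E over K_v) / 2`. -/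
def Image : Set ((∀ v : HeightOneSpectrum k[X], CH0ModTwo α β (Comp k[X] K v)) ×
    CH0ModTwo α β (CompInf k K)) :=
  Set.range fun z : CH0 α β K => (diagonal k z).cls

end global'

end Pool.Agent.V8H26.ZC
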