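import Pool.Agent.V8H26.ZC.Main

/-!
# The order of the kernel of the pairing, and exactness
-/

set_option autoImplicit false
set_option linter.all false

open Polynomial IsDedekindDomain WeierstrassCurve WeierstrassCurve.Affine
open scoped Classical

namespace Pool.Agent.V8H26.ZC

open Pool.Agent.TH115.GD Pool.Agent.H341R2.Sharp Finset Pool.Agent.Y164.PS
open Pool.Agent.V8H26.XA

/-- the pairs of classes of points -/
def OP {K : Type} [Field K] (L : Type) [Field L] [Algebra K L] (α β : K) (u w : K) : Prop :=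
  ∃ (P : Pt (crv α β) L) (c₀ c₁ : L), c₀ ≠ 0 ∧ c₁ ≠ 0 ∧
    algebraMap K L u = c₀ ^ 2 * d0 (algebraMap K L α) (algebraMap K L β) P ∧
    algebraMap K L w = c₁ ^ 2 * d1 (algebraMap K L α) (algebraMap K L β) P

/-- the 2-Selmer group -/
def TS (k : Type) {K : Type} [Field k] [Field K] [Algebra k[X] K] [IsFractionRing k[X] K]
    (α β : K) : Set (MS K × MS K) :=
  {c | ∃ u w : Kˣ, c = ((u : MS K), (w : MS K)) ∧
    (∀ v : IsDedekindDomain.HeightOneSpectrum k[X], OP (Comp k[X] K v) α β u w) ∧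
    OP (CompInf k K) α β u w}

theorem TS_eq (k : Type) {K : Type} [Field k] [Field K] [Algebra k[X] K] [IsFractionRing k[X] K]
    (α β : K) : TS k α β = Sl k α β := rfl

section sq
variable {L : Type} [Field L]

theorem sq_combo {a b u w : L} (hu : u ≠ 0) (hw : w ≠ 0) (h1 : IsSquare (a * u))
    (h2 : IsSquare (b * w)) (h3 : IsSquare (u * w)) : IsSquare (a * b) := by
  obtain ⟨x, hx⟩ := h1
  obtain ⟨y, hy⟩ := h2
  obtain ⟨z, hz⟩ := h3
  refine ⟨x * y * z / (u * w), ?_⟩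
  field_simp
  have e : (x * y * z) * (x * y * z) = (a * u) * (b * w) * (u * w) := by rw [hx, hy, hz]; ring
  linear_combination -e

theorem sqEq_of_sq {u w : L} (hu : u ≠ 0) (hw : w ≠ 0) (h : IsSquare (u * w)) : SqEq u w := by
  obtain ⟨z, hz⟩ := h
  have hz0 : z ≠ 0 := by
    rintro rfl
    exact mul_ne_zero hu hw (by rw [hz, mul_zero])
  refine ⟨z / w, div_ne_zero hz0 hw, ?_⟩
  field_simp
  linear_combination hz

theorem sq_of_sqEq {u w : L} (h : SqEq u w) : IsSquare (u * w) := by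
  obtain ⟨c, hc, rfl⟩ := h
  exact ⟨c * w, by ring⟩

end sq

section

variable {k K : Type} [Field k] [Fintype k] [DecidableEq k] [Field K] [Algebra k[X] K]
  [IsFractionRing k[X] K]

/-- the family `z` has the degree `n` and the classes `u`, `w` -/
structure Rel {α β : K} (n : F2) (u w : K) (z : Adelic k α β) : Prop where
  n1 : ∀ v, ((z.fin v).1 : F2) = n
  n2 : (z.inf.1 : F2) = n
  u1 : ∀ v, IsSquare (e0 α β (Comp k[X] K v) (z.fin v).2 * algebraMap K (Comp k[X] K v) u)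
  w1 : ∀ v, IsSquare (e1 α β (Comp k[X] K v) (z.fin v).2 * algebraMap K (Comp k[X] K v) w)
  u2 : IsSquare (e0 α β (CompInf k K) z.inf.2 * algebraMap K (CompInf k K) u)
  w2 : IsSquare (e1 α β (CompInf k K) z.inf.2 * algebraMap K (CompInf k K) w)

variable {α β : K}

theorem exists_rel {u w : K} (n : F2)
    (h : ∀ v : IsDedekindDomain.HeightOneSpectrum k[X], OP (Comp k[X] K v) α β u w)
    (h' : OP (CompInf k K) α β u w) : ∃ z : Adelic k α β, Rel n u w z := by
  choose P c₀ c₁ n0 n1 e0' e1' using h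
  obtain ⟨P', c₀', c₁', n0', n1', f0, f1⟩ := h'
  have key : ∀ {L : Type} [Field L] (x d c : L), x = c ^ 2 * d → IsSquare (d * x) := by
    intro L _ x d c e
    exact ⟨c * d, by rw [e]; ring⟩
  refine ⟨⟨fun v => ((n.val : ℤ), P v), ((n.val : ℤ), P')⟩, fun v => ?_, ?_, fun v => ?_,
    fun v => ?_, ?_, ?_⟩
  · show (((n.val : ℤ)) : F2) = n
    simp
  · show (((n.val : ℤ)) : F2) = n
    simp
  · exact key _ _ _ (e0' v)
  · exact key _ _ _ (e1' v)
  · exact key _ _ _ f0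
  · exact key _ _ _ f1

theorem op_of_sq (h : HK α β) {L : Type} [Field L] [Algebra K L] {u w : K} (hu : u ≠ 0)
    (hw : w ≠ 0) (P : Pt (crv α β) L) (h0 : IsSquare (e0 α β L P * algebraMap K L u))
    (h1 : IsSquare (e1 α β L P * algebraMap K L w)) : OP L α β u w := by
  have n0 := e0_ne h L P
  have n1 := e1_ne h L P
  have hu' : algebraMap K L u ≠ 0 := (_root_.map_ne_zero _).2 hu
  have hw' : algebraMap K L w ≠ 0 := (_root_.map_ne_zero _).2 hw
  rw [mul_comm] at h0 h1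
  obtain ⟨c, hc, e⟩ := sqEq_of_sq hu' n0 h0
  obtain ⟨c', hc', e'⟩ := sqEq_of_sq hw' n1 h1
  exact ⟨P, c, c', hc, hc', e, e'⟩

theorem Rel.mem (h : HK α β) {n : F2} {u w : K} (hu : u ≠ 0) (hw : w ≠ 0) {z : Adelic k α β}
    (hz : Rel n u w z) : (∀ v : IsDedekindDomain.HeightOneSpectrum k[X],
      OP (Comp k[X] K v) α β u w) ∧ OP (CompInf k K) α β u w :=
  ⟨fun v => op_of_sq h hu hw _ (hz.u1 v) (hz.w1 v), op_of_sq h hu hw _ hz.u2 hz.w2⟩

theorem Rel.cls_eq (h : HK α β) {n n' : F2} {u w u' w' : K} (hu : u ≠ 0) (hw : w ≠ 0)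
    (hu' : u' ≠ 0) (hw' : w' ≠ 0) {z z' : Adelic k α β} (hz : Rel n u w z)
    (hz' : Rel n' u' w' z') (hn : n = n') (e0' : SqEq u u') (e1' : SqEq w w') :
    z.cls = z'.cls := by
  subst hn
  have key : ∀ (L : Type) [Field L] [Algebra K L] (y y' : CH0 α β L), (y.1 : F2) = n →
      (y'.1 : F2) = n → IsSquare (e0 α β L y.2 * algebraMap K L u) →
      IsSquare (e1 α β L y.2 * algebraMap K L w) → IsSquare (e0 α β L y'.2 * algebraMap K L u') →
      IsSquare (e1 α β L y'.2 * algebraMap K L w') →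
      (y : CH0ModTwo α β L) = (y' : CH0ModTwo α β L) := by
    intro L _ _ y y' h1 h2 a0 a1 b0 b1
    have q0 : IsSquare (algebraMap K L u' * algebraMap K L u) := by
      rw [← map_mul, mul_comm]
      exact (sq_of_sqEq e0').map _
    have q1 : IsSquare (algebraMap K L w' * algebraMap K L w) := by
      rw [← map_mul, mul_comm]
      exact (sq_of_sqEq e1').map _
    rw [mk_eq_iff]
    exact ⟨h1.trans h2.symm, congr_of_sq h L _ _
      (sq_combo ((_root_.map_ne_zero _).2 hu') ((_root_.map_ne_zero _).2 hu) b0 a0 q0)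
      (sq_combo ((_root_.map_ne_zero _).2 hw') ((_root_.map_ne_zero _).2 hw) b1 a1 q1)⟩
  exact Prod.ext (funext fun v => key _ _ _ (hz.n1 v) (hz'.n1 v) (hz.u1 v) (hz.w1 v) (hz'.u1 v)
    (hz'.w1 v)) (key _ _ _ hz.n2 hz'.n2 hz.u2 hz.w2 hz'.u2 hz'.w2)

theorem Rel.of_cls (h : HK α β) {n n' : F2} {u w u' w' : K} (hu : u ≠ 0) (hw : w ≠ 0)
    (hu' : u' ≠ 0) (hw' : w' ≠ 0) {z z' : Adelic k α β} (hz : Rel n u w z)
    (hz' : Rel n' u' w' z') (e : z.cls = z'.cls) : n = n' ∧ SqEq u u' ∧ SqEq w w' := by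
  have key : ∀ (L : Type) [Field L] [Algebra K L] (y y' : CH0 α β L),
      IsSquare (e0 α β L y.2 * algebraMap K L u) →
      IsSquare (e1 α β L y.2 * algebraMap K L w) → IsSquare (e0 α β L y'.2 * algebraMap K L u') →
      IsSquare (e1 α β L y'.2 * algebraMap K L w') →
      (y : CH0ModTwo α β L) = (y' : CH0ModTwo α β L) →
      (y.1 : F2) = (y'.1 : F2) ∧ IsSquare (algebraMap K L (u * u')) ∧
        IsSquare (algebraMap K L (w * w')) := by
    intro L _ _ y y' a0 a1 b0 b1 e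
    rw [mk_eq_iff] at e
    obtain ⟨h1, R, hR⟩ := e
    obtain ⟨q0, q1⟩ := sq_of_congr h L _ _ R hR
    rw [mul_comm] at a0 a1 b0 b1
    rw [map_mul, map_mul]
    rw [mul_comm] at q0 q1
    exact ⟨h1, sq_combo (e0_ne h L _) (e0_ne h L _) a0 b0 q0,
      sq_combo (e1_ne h L _) (e1_ne h L _) a1 b1 q1⟩
  have k1 : ∀ v, _ := fun v => key _ _ _ (hz.u1 v) (hz.w1 v) (hz'.u1 v) (hz'.w1 v)
    (congrFun (congrArg Prod.fst e) v)
  have k2 := key _ _ _ hz.u2 hz.w2 hz'.u2 hz'.w2 (congrArg Prod.snd e)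
  refine ⟨by rw [← hz.n2, ← hz'.n2]; exact k2.1, ?_, ?_⟩
  · exact sqEq_of_sq hu hu' (sq_of_loc (k := k) (mul_ne_zero hu hu') (fun v => (k1 v).2.1) k2.2.1)
  · exact sqEq_of_sq hw hw' (sq_of_loc (k := k) (mul_ne_zero hw hw') (fun v => (k1 v).2.2) k2.2.2)

end

section main

variable {k K : Type} [Field k] [Fintype k] [DecidableEq k] [Field K] [Algebra k[X] K]
  [IsFractionRing k[X] K]
variable (hk : ringChar k ≠ 2) (hm : IsSquare (-1 : k)) {A B : k[X]} (hA : A ≠ 0) (hB : B ≠ 0)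
  (hAB : A ≠ B)

include hk hm hA hB hAB in
theorem mem_kernel_iff (z : Adelic k (algebraMap k[X] K A) (algebraMap k[X] K B)) :
    (∀ T, z.pairing T = 0) ↔ ∃ (n : F2) (u w : K), u ≠ 0 ∧ w ≠ 0 ∧ Rel n u w z := by
  constructor
  · intro hz
    obtain ⟨h1, x, y, hx, hy, x1, y1, x2, y2⟩ := of_orth hk hm hA hB hAB z hz
    exact ⟨_, x, y, hx, hy, h1, rfl, x1, y1, x2, y2⟩
  · rintro ⟨n, u, w, hu, hw, hz⟩ T
    exact orth_of hk hm hA hB hAB z n hz.n1 hz.n2 hu hw hz.u1 hz.w1 hz.u2 hz.w2 T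

theorem mem_TS_iff {α β : K} (u w : Kˣ) : (((u : MS K), (w : MS K)) ∈ TS k α β) ↔
    (∀ v : IsDedekindDomain.HeightOneSpectrum k[X], OP (Comp k[X] K v) α β u w) ∧
      OP (CompInf k K) α β u w := by
  constructor
  · rintro ⟨u', w', e, h1, h2⟩
    have g0 : SqEq (u : K) (u' : K) := (ms_eq _ _).1 (congrArg Prod.fst e)
    have g1 : SqEq (w : K) (w' : K) := (ms_eq _ _).1 (congrArg Prod.snd e)
    have key : ∀ (L : Type) [Field L] [Algebra K L], OP L α β (u' : K) (w' : K) →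
        OP L α β (u : K) (w : K) := by
      intro L _ _ h
      obtain ⟨P, c₀, c₁, n0, n1, e0', e1'⟩ := h
      obtain ⟨c, hc, f0⟩ := g0
      obtain ⟨d, hd, f1⟩ := g1
      refine ⟨P, algebraMap K L c * c₀, algebraMap K L d * c₁,
        mul_ne_zero ((_root_.map_ne_zero _).2 hc) n0, mul_ne_zero ((_root_.map_ne_zero _).2 hd) n1,
        ?_, ?_⟩
      · rw [f0, map_mul, map_pow, e0']; ring
      · rw [f1, map_mul, map_pow, e1']; ring
    exact ⟨fun v => key _ (h1 v), key _ h2⟩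
  · rintro ⟨h1, h2⟩
    exact ⟨u, w, rfl, h1, h2⟩

include hk hm hA hB hAB in
/-- **the order of the kernel of the pairing** -/
theorem kernel_card : (Kernel k (algebraMap k[X] K A) (algebraMap k[X] K B)).ncard =
    2 * (TS k (algebraMap k[X] K A) (algebraMap k[X] K B)).ncard := by
  set α := algebraMap k[X] K A with hα
  set β := algebraMap k[X] K B with hβ
  have h : HK α β := hK (K := K) hk hA hB hAB
  have hex : ∀ s : F2 × (MS K × MS K), ∃ z : Adelic k α β, s.2 ∈ TS k α β →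
      ∃ u w : Kˣ, s.2 = ((u : MS K), (w : MS K)) ∧ Rel s.1 (u : K) (w : K) z := by
    intro s
    by_cases hs : s.2 ∈ TS k α β
    · obtain ⟨u, w, e, h1, h2⟩ := hs
      obtain ⟨z, hz⟩ := exists_rel (k := k) s.1 h1 h2
      exact ⟨z, fun _ => ⟨u, w, e, hz⟩⟩
    · exact ⟨⟨fun v => 0, 0⟩, fun h' => absurd h' hs⟩
  choose F hF using hex
  have hinj : Set.InjOn (fun s => (F s).cls) ((Set.univ : Set F2) ×ˢ TS k α β) := by
    rintro s ⟨-, hs⟩ s' ⟨-, hs'⟩ e
    obtain ⟨u, w, e1', r1⟩ := hF s hs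
    obtain ⟨u', w', e2', r2⟩ := hF s' hs'
    obtain ⟨g1, g2, g3⟩ := r1.of_cls h u.ne_zero w.ne_zero u'.ne_zero w'.ne_zero r2 e
    refine Prod.ext g1 ?_
    rw [e1', e2', (ms_eq _ _).2 g2, (ms_eq _ _).2 g3]
  have himg : (fun s => (F s).cls) '' ((Set.univ : Set F2) ×ˢ TS k α β) = Kernel k α β := by
    ext x
    constructor
    · rintro ⟨s, ⟨-, hs⟩, rfl⟩
      obtain ⟨u, w, e1', r1⟩ := hF s hs
      exact ⟨F s, (mem_kernel_iff hk hm hA hB hAB _).2 ⟨_, _, _, u.ne_zero, w.ne_zero, r1⟩, rfl⟩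
    · rintro ⟨z, hz, rfl⟩
      obtain ⟨n, u, w, hu, hw, r⟩ := (mem_kernel_iff hk hm hA hB hAB _).1 hz
      have hmem : (((Units.mk0 u hu : Kˣ) : MS K), ((Units.mk0 w hw : Kˣ) : MS K)) ∈ TS k α β :=
        (mem_TS_iff _ _).2 (r.mem h hu hw)
      refine ⟨(n, (((Units.mk0 u hu : Kˣ) : MS K), ((Units.mk0 w hw : Kˣ) : MS K))),
        ⟨Set.mem_univ _, hmem⟩, ?_⟩
      obtain ⟨u', w', e1', r1⟩ := hF (n, (((Units.mk0 u hu : Kˣ) : MS K),
        ((Units.mk0 w hw : Kˣ) : MS K))) hmem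
      have g0 : SqEq u (u' : K) := (ms_eq (Units.mk0 u hu) u').1 (congrArg Prod.fst e1')
      have g1 : SqEq w (w' : K) := (ms_eq (Units.mk0 w hw) w').1 (congrArg Prod.snd e1')
      exact r1.cls_eq h u'.ne_zero w'.ne_zero hu hw r rfl g0.symm g1.symm
  rw [← himg, Set.ncard_image_of_injOn hinj, Set.ncard_prod]
  congr 1
  rw [Set.ncard_univ, Nat.card_zmod]

theorem rel_diag {α β : K} (h : HK α β) (z : CH0 α β K) :
    Rel (k := k) (z.1 : F2) (d0 α β z.2) (d1 α β z.2) (diagonal k z) := by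
  have key0 : ∀ (L : Type) [Field L] [Algebra K L],
      IsSquare (e0 α β L (act (crv α β) (Algebra.ofId K L) z.2) * algebraMap K L (d0 α β z.2)) := by
    intro L _ _
    have := d0_act (crv α β) (Algebra.ofId K L) α β z.2
    have e : e0 α β L (act (crv α β) (Algebra.ofId K L) z.2) = algebraMap K L (d0 α β z.2) := this
    rw [e]
    exact ⟨_, rfl⟩
  have key1 : ∀ (L : Type) [Field L] [Algebra K L],
      IsSquare (e1 α β L (act (crv α β) (Algebra.ofId K L) z.2) * algebraMap K L (d1 α β z.2)) := by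
    intro L _ _
    have := d1_act (crv α β) (Algebra.ofId K L) α β z.2
    have e : e1 α β L (act (crv α β) (Algebra.ofId K L) z.2) = algebraMap K L (d1 α β z.2) := this
    rw [e]
    exact ⟨_, rfl⟩
  exact ⟨fun v => rfl, rfl, fun v => key0 _, fun v => key1 _, key0 _, key1 _⟩

include hk hm hA hB hAB in
/-- the complex is a complex -/
theorem image_sub : Image k (algebraMap k[X] K A) (algebraMap k[X] K B) ⊆
    Kernel k (algebraMap k[X] K A) (algebraMap k[X] K B) := by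
  have h := hK (K := K) hk hA hB hAB
  rintro _ ⟨z, rfl⟩
  have hE := isE _ _ K h.two h.a h.b h.ab
  exact ⟨diagonal k z, (mem_kernel_iff hk hm hA hB hAB _).2 ⟨_, _, _, d0_ne hE z.2, d1_ne hE z.2,
    rel_diag h z⟩, rfl⟩

include hk hm hA hB hAB in
/-- **exactness** -/
theorem exact_of_sha (hS : ShaTwo k (crv (algebraMap k[X] K A) (algebraMap k[X] K B))) :
    Kernel k (algebraMap k[X] K A) (algebraMap k[X] K B) =
      Image k (algebraMap k[X] K A) (algebraMap k[X] K B) := by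
  have h := hK (K := K) hk hA hB hAB
  have hE := isE _ _ K h.two h.a h.b h.ab
  refine Set.Subset.antisymm ?_ (image_sub hk hm hA hB hAB)
  rintro _ ⟨z, hz, rfl⟩
  obtain ⟨n, u, w, hu, hw, r⟩ := (mem_kernel_iff hk hm hA hB hAB _).1 hz
  obtain ⟨Q, q0, q1⟩ := pt_of_sha (k := k) h.two h.a h.b h.ab hS hu hw (r.mem h hu hw)
  refine ⟨((n.val : ℤ), Q), ?_⟩
  have r2 := rel_diag (k := k) h (((n.val : ℤ), Q) : CH0 _ _ K)
  have hn : (((n.val : ℤ)) : F2) = n := by simp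
  exact r2.cls_eq h (d0_ne hE Q) (d1_ne hE Q) hu hw r hn q0.symm q1.symm

end main

end Pool.Agent.V8H26.ZC
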