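import Pool.Agent.V8H26.ZC.Cpl

/-!
# Reciprocity and duality for the quadratic Hilbert symbols over `k(t)`
-/

set_option autoImplicit false
set_option linter.all false

open Polynomial IsDedekindDomain
open scoped Classical

namespace Pool.Agent.V8H26.ZC

open Pool.Agent.TH115.GD Pool.Agent.H341R2.Sharp Finset Pool.Agent.Y164.PS

section

variable {k K : Type} [Field k] [Fintype k] [DecidableEq k] [Field K] [Algebra k[X] K]
  [IsFractionRing k[X] K]

/-- the class at a finite place -/
noncomputable def cv (v : HeightOneSpectrum k[X]) (x : Comp k[X] K v) : W :=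
  th (wv v) (algebraMap K (Comp k[X] K v) (algebraMap k[X] K (gn v))) x

/-- the class at infinity -/
noncomputable def ci (x : CompInf k K) : W :=
  th (wi k K) (algebraMap K (CompInf k K) (algebraMap k[X] K X)) x

variable (hk : ringChar k ≠ 2) (hm : IsSquare (-1 : k))

theorem gv_ne (v : HeightOneSpectrum k[X]) :
    algebraMap K (Comp k[X] K v) (algebraMap k[X] K (gn v)) ≠ 0 := by
  have : algebraMap k[X] K (gn v) ≠ 0 := by simpa using (gn_irr v).ne_zero
  exact (_root_.map_ne_zero _).2 this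

theorem gi_ne : algebraMap K (CompInf k K) (algebraMap k[X] K X) ≠ 0 := by
  have : algebraMap k[X] K X ≠ 0 := by simp
  exact (_root_.map_ne_zero _).2 this

theorem wi_X : ¬ IsSquare (wi k K (algebraMap K (CompInf k K) (algebraMap k[X] K X))) := by
  rw [wi_coe, vInf_poly X_ne_zero, natDegree_X, isSquare_exp]
  decide

include hk hm in
theorem lf_inf : LF (wi k K) := lf_comp (F := AtInf K) (pl (0 : k)) hk hm

include hk hm in
theorem cv_mul (v : HeightOneSpectrum k[X]) {x y : Comp k[X] K v} (hx : x ≠ 0) (hy : y ≠ 0) :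
    cv v (x * y) = cv v x + cv v y :=
  th_mul (lf_comp v hk hm) (gv_ne v) (wv_gn v) hx hy

include hk hm in
theorem ci_mul {x y : CompInf k K} (hx : x ≠ 0) (hy : y ≠ 0) : ci (x * y) = ci x + ci y :=
  th_mul (lf_inf hk hm) gi_ne wi_X hx hy

theorem cv_zero (v : HeightOneSpectrum k[X]) {x : Comp k[X] K v} : cv v x = 0 ↔ IsSquare x :=
  th_zero_iff

theorem ci_zero {x : CompInf k K} : ci x = 0 ↔ IsSquare x := th_zero_iff

include hk hm in
theorem inv_cv (v : HeightOneSpectrum k[X]) {x y : Comp k[X] K v} (hx : x ≠ 0) (hy : y ≠ 0) :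
    inv x y = om (cv v x) (cv v y) :=
  inv_eq (lf_comp v hk hm) (gv_ne v) (wv_gn v) hx hy

include hk hm in
theorem inv_ci {x y : CompInf k K} (hx : x ≠ 0) (hy : y ≠ 0) : inv x y = om (ci x) (ci y) :=
  inv_eq (lf_inf hk hm) gi_ne wi_X hx hy

theorem cv_fst (v : HeightOneSpectrum k[X]) {x : Comp k[X] K v} :
    (cv v x).1 = if IsSquare (wv v x) then 0 else 1 := th_fst

/-- the class of an element of `K` at a finite place -/
noncomputable def kv (v : HeightOneSpectrum k[X]) (x : K) : W :=
  cv v (algebraMap K (Comp k[X] K v) x)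

/-- the class of an element of `K` at infinity -/
noncomputable def ki (k : Type) {K : Type} [Field k] [Field K] [Algebra k[X] K]
    [IsFractionRing k[X] K] (x : K) : W :=
  th (wi k K) (algebraMap K (CompInf k K) (algebraMap k[X] K X)) (algebraMap K (CompInf k K) x)

theorem ki_eq (x : K) : ki k x = ci (algebraMap K (CompInf k K) x) := rfl

include hk hm in
theorem kv_mul (v : HeightOneSpectrum k[X]) {x y : K} (hx : x ≠ 0) (hy : y ≠ 0) :
    kv v (x * y) = kv v x + kv v y := by
  unfold kv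
  rw [map_mul, cv_mul hk hm v ((_root_.map_ne_zero _).2 hx) ((_root_.map_ne_zero _).2 hy)]

include hk hm in
theorem ki_mul {x y : K} (hx : x ≠ 0) (hy : y ≠ 0) : ki k (x * y) = ki k x + ki k y := by
  rw [ki_eq, map_mul, ci_mul hk hm ((_root_.map_ne_zero _).2 hx) ((_root_.map_ne_zero _).2 hy)]
  rfl

include hk in
theorem kv_poly (v : HeightOneSpectrum k[X]) {g : k[X]} (hg : ¬ gn v ∣ g) :
    kv v (algebraMap k[X] K g) = (0, L g (gn v)) := by
  have h1 : wv v (algebraMap K (Comp k[X] K v) (algebraMap k[X] K g)) = 1 := by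
    rw [wv_coe, valK_one, mem_gn]
    exact hg
  unfold kv cv
  rw [th_even (by rw [h1]; exact ⟨1, by simp⟩)]
  refine Prod.ext rfl ?_
  show (if IsSquare _ then (0 : F2) else 1) = L g (gn v)
  have hF : ∀ a : F2, a ≠ 0 → a = 1 := by decide
  by_cases h : IsSquare (algebraMap K (Comp k[X] K v) (algebraMap k[X] K g))
  · rw [if_pos h]
    exact ((isSq_poly v hk hg).1 h).symm
  · rw [if_neg h]
    exact (hF _ fun h' => h ((isSq_poly v hk hg).2 h')).symm

theorem kv_gn (v : HeightOneSpectrum k[X]) : kv v (algebraMap k[X] K (gn v)) = (1, 0) :=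
  th_p (gv_ne v) (wv_gn v)

include hk in
theorem ki_C {c : k} (hc : c ≠ 0) : ki k (algebraMap k[X] K (C c)) = (0, ch c) := by
  have h1 : wi k K (algebraMap K (CompInf k K) (algebraMap k[X] K (C c))) = 1 := by
    rw [wi_coe, vInf_poly (C_ne_zero.2 hc), natDegree_C]
    simp
  unfold ki
  rw [th_even (by rw [h1]; exact ⟨1, by simp⟩)]
  refine Prod.ext rfl ?_
  show (if IsSquare _ then (0 : F2) else 1) = ch c
  have hF : ∀ a : F2, a ≠ 0 → a = 1 := by decide
  by_cases h : IsSquare (algebraMap K (CompInf k K) (algebraMap k[X] K (C c)))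
  · rw [if_pos h]
    have h3 := (sq_inf (C_ne_zero.2 hc) h).2
    rw [leadingCoeff_C] at h3
    exact ((ch_eq_zero_iff hc).2 h3).symm
  · rw [if_neg h]
    refine (hF _ fun h' => h ?_).symm
    obtain ⟨s, hs⟩ := (ch_eq_zero_iff hc).1 h'
    refine ⟨algebraMap K (CompInf k K) (algebraMap k[X] K (C s)), ?_⟩
    rw [← map_mul, ← map_mul, ← C_mul, hs]

include hk in
theorem ki_monic {P : k[X]} (hP : P.Monic) :
    ki k (algebraMap k[X] K P) = ((P.natDegree : F2), 0) := by
  have h2k : (2 : k) ≠ 0 := Ring.two_ne_zero hk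
  have hw : wi k K (algebraMap K (CompInf k K) (algebraMap k[X] K P)) =
      WithZero.exp (P.natDegree : ℤ) := by
    rw [wi_coe, vInf_poly hP.ne_zero]
  rcases Nat.even_or_odd P.natDegree with he | ho
  · rw [(ZMod.natCast_eq_zero_iff_even).2 he]
    exact th_zero_iff.2 ((isSq_of_SqEq (Pool.Agent.V8H26.XA.sq_inf' h2k hP he)).2 ⟨1, by ring⟩)
  · unfold ki
    have h1 : ¬ IsSquare (wi k K (algebraMap K (CompInf k K) (algebraMap k[X] K P))) := by
      rw [hw, isSquare_exp]
      intro h
      rw [← Nat.not_even_iff_odd] at ho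
      exact ho (by exact_mod_cast h)
    rw [th_odd h1, (ZMod.natCast_eq_one_iff_odd).2 ho]
    refine Prod.ext rfl ?_
    have h3 : Even (P * X).natDegree := by
      rw [natDegree_mul_X hP.ne_zero]
      exact ho.add_one
    have h4 := Pool.Agent.V8H26.XA.sq_inf' (K := K) h2k (hP.mul monic_X) h3
    rw [map_mul, map_mul] at h4
    exact if_pos ((isSq_of_SqEq h4).2 ⟨1, by ring⟩)

/-- an element of `K` is the class of a polynomial -/
theorem exists_poly {x : K} (hx : x ≠ 0) : ∃ g : k[X], g ≠ 0 ∧ SqEq x (algebraMap k[X] K g) := by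
  obtain ⟨n, d, hd, e⟩ := IsFractionRing.div_surjective (A := k[X]) (K := K) x
  have hd0 : algebraMap k[X] K d ≠ 0 := by simpa using nonZeroDivisors.ne_zero hd
  have hn0 : n ≠ 0 := by
    rintro rfl
    rw [map_zero, zero_div] at e
    exact hx e.symm
  refine ⟨n * d, mul_ne_zero hn0 (nonZeroDivisors.ne_zero hd), (algebraMap k[X] K d)⁻¹,
    inv_ne_zero hd0, ?_⟩
  rw [map_mul, ← e]
  field_simp

include hk hm in
theorem kv_congr (v : HeightOneSpectrum k[X]) {x y : K} (hy : y ≠ 0) (h : SqEq x y) :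
    kv v x = kv v y := by
  obtain ⟨c, hc, rfl⟩ := h
  rw [kv_mul hk hm v (pow_ne_zero 2 hc) hy, (show kv v (c ^ 2) = 0 from (cv_zero v).2
    ⟨algebraMap K (Comp k[X] K v) c, by rw [← map_mul]; congr 1; ring⟩), zero_add]

include hk hm in
theorem ki_congr {x y : K} (hy : y ≠ 0) (h : SqEq x y) : ki k x = ki k y := by
  obtain ⟨c, hc, rfl⟩ := h
  rw [ki_mul hk hm (pow_ne_zero 2 hc) hy, (show ki k (c ^ 2) = 0 from ci_zero.2
    ⟨algebraMap K (CompInf k K) c, by rw [← map_mul]; congr 1; ring⟩), zero_add]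

theorem fin_dvd {g : k[X]} (hg : g ≠ 0) : {v : HeightOneSpectrum k[X] | gn v ∣ g}.Finite := by
  have h0 : Ideal.span {g} ≠ 0 := by
    rw [Ne, Ideal.zero_eq_bot, Ideal.span_singleton_eq_bot]
    exact hg
  refine (Ideal.finite_factors h0).subset ?_
  intro v hv
  rw [Set.mem_setOf_eq, Ideal.dvd_iff_le, Ideal.span_singleton_le_iff_mem, mem_gn]
  exact hv

include hk hm in
theorem fin_kv {x : K} (hx : x ≠ 0) : {v : HeightOneSpectrum k[X] | (kv v x).1 ≠ 0}.Finite := by
  obtain ⟨g, hg, hs⟩ := exists_poly (k := k) hx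
  have hg' : algebraMap k[X] K g ≠ 0 := by simpa using hg
  refine (fin_dvd hg).subset ?_
  intro v hv
  rw [Set.mem_setOf_eq] at hv ⊢
  by_contra h
  rw [kv_congr hk hm v hg' hs, kv_poly hk v h] at hv
  exact hv rfl

theorem om_ne {x y : W} (h : om x y ≠ 0) : x.1 ≠ 0 ∨ y.1 ≠ 0 := by
  by_contra h'
  push Not at h'
  apply h
  rw [om, h'.1, h'.2, zero_mul, mul_zero, add_zero]

/-- the sum of the local symbols -/
noncomputable def SS (k : Type) {K : Type} [Field k] [Fintype k] [DecidableEq k] [Field K]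
    [Algebra k[X] K] [IsFractionRing k[X] K] (x y : K) : F2 :=
  ∑ᶠ v : HeightOneSpectrum k[X], om (kv v x) (kv v y) + om (ki k x) (ki k y)

include hk hm in
theorem fin_om {x y : K} (hx : x ≠ 0) (hy : y ≠ 0) :
    (Function.support fun v : HeightOneSpectrum k[X] => om (kv v x) (kv v y)).Finite :=
  ((fin_kv hk hm hx).union (fin_kv hk hm hy)).subset fun v hv => om_ne hv

include hk hm in
theorem SS_mul {x x' y : K} (hx : x ≠ 0) (hx' : x' ≠ 0) (hy : y ≠ 0) :
    SS k (x * x') y = SS k x y + SS k x' y := by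
  unfold SS
  rw [ki_mul hk hm hx hx', om_add_left]
  have e : (fun v : HeightOneSpectrum k[X] => om (kv v (x * x')) (kv v y)) =
      fun v => om (kv v x) (kv v y) + om (kv v x') (kv v y) := by
    funext v
    rw [kv_mul hk hm v hx hx', om_add_left]
  rw [finsum_congr (congrFun e), finsum_add_distrib (fin_om hk hm hx hy) (fin_om hk hm hx' hy)]
  ring

theorem SS_comm (x y : K) : SS k x y = SS k y x := by
  unfold SS
  rw [om_comm (ki k x)]
  congr 1
  exact finsum_congr fun v => om_comm _ _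

theorem SS_self (x : K) : SS k x x = 0 := by
  unfold SS
  rw [om_self, add_zero, finsum_congr (g := fun _ => 0) (fun v => om_self _), finsum_zero]

theorem not_dvd_C (v : HeightOneSpectrum k[X]) {c : k} (hc : c ≠ 0) : ¬ gn v ∣ C c := fun h =>
  (gn_irr v).not_isUnit (isUnit_of_dvd_unit h (isUnit_C.2 (isUnit_iff_ne_zero.2 hc)))

theorem not_dvd_irr (v : HeightOneSpectrum k[X]) {P : k[X]} (hP : P.Monic) (hi : Irreducible P)
    (h : v ≠ plK hi) : ¬ gn v ∣ P := fun hd => by
  have h1 := eq_of_monic_of_associated (gn_monic v) hP ((gn_irr v).associated_of_dvd hi hd)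
  apply h
  apply gn_inj
  rw [gn_plK hP hi, h1]

include hk hm in
theorem SS_C_C {c d : k} (hc : c ≠ 0) (hd : d ≠ 0) :
    SS k (algebraMap k[X] K (C c)) (algebraMap k[X] K (C d)) = 0 := by
  unfold SS
  rw [ki_C hk hc, ki_C hk hd, finsum_congr (g := fun _ => 0) fun v => ?_, finsum_zero]
  · simp [om]
  · rw [kv_poly hk v (not_dvd_C v hc), kv_poly hk v (not_dvd_C v hd)]
    simp [om]

include hk hm in
theorem SS_C_P {c : k} (hc : c ≠ 0) {P : k[X]} (hP : P.Monic) (hi : Irreducible P) :
    SS k (algebraMap k[X] K (C c)) (algebraMap k[X] K P) = 0 := by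
  unfold SS
  rw [ki_C hk hc, ki_monic hk hP, finsum_eq_single _ (plK hi) fun v hv => ?_]
  · have e1 : kv (plK hi) (algebraMap k[X] K P) = (1, 0) := by
      have := kv_gn (K := K) (plK hi)
      rwa [gn_plK hP hi] at this
    rw [e1, kv_poly hk _ (not_dvd_C _ hc), gn_plK hP hi, L_C hc]
    simp only [om, zero_mul, mul_one, zero_add, mul_zero, add_zero]
    rw [mul_comm (ch c)]
    exact F2_add_self _
  · rw [kv_poly hk v (not_dvd_C v hc), kv_poly hk v (not_dvd_irr v hP hi hv)]
    simp [om]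

include hk hm in
theorem SS_P_P {P Q : k[X]} (hP : P.Monic) (hi : Irreducible P) (hQ : Q.Monic)
    (hj : Irreducible Q) : SS k (algebraMap k[X] K P) (algebraMap k[X] K Q) = 0 := by
  by_cases hPQ : P = Q
  · rw [hPQ]
    exact SS_self _
  have hne : plK hi ≠ plK hj := fun h => hPQ (by rw [← gn_plK hP hi, h, gn_plK hQ hj])
  unfold SS
  have hs : (Function.support fun v : HeightOneSpectrum k[X] =>
      om (kv v (algebraMap k[X] K P)) (kv v (algebraMap k[X] K Q))) ⊆
      (({plK hi, plK hj} : Finset (HeightOneSpectrum k[X])) : Set _) := by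
    intro v hv
    by_contra h
    rw [Finset.mem_coe, mem_insert, mem_singleton] at h
    push Not at h
    apply hv
    show om _ _ = 0
    rw [kv_poly hk v (not_dvd_irr v hP hi h.1), kv_poly hk v (not_dvd_irr v hQ hj h.2)]
    simp [om]
  rw [finsum_eq_sum_of_support_subset _ hs, sum_pair hne, ki_monic hk hP, ki_monic hk hQ]
  have e1 : kv (plK hi) (algebraMap k[X] K P) = (1, 0) := by
    have := kv_gn (K := K) (plK hi)
    rwa [gn_plK hP hi] at this
  have e2 : kv (plK hj) (algebraMap k[X] K Q) = (1, 0) := by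
    have := kv_gn (K := K) (plK hj)
    rwa [gn_plK hQ hj] at this
  rw [e1, e2, kv_poly hk _ (not_dvd_irr (plK hi) hQ hj hne),
    kv_poly hk _ (not_dvd_irr (plK hj) hP hi (Ne.symm hne)), gn_plK hP hi, gn_plK hQ hj,
    L_comm hm Q P]
  simp only [om, zero_mul, mul_one, zero_add, mul_zero, add_zero, one_mul]
  exact F2_add_self _

include hk hm in
theorem SS_poly_aux (x : K) (hx : x ≠ 0)
    (h1 : ∀ c : k, c ≠ 0 → SS k (algebraMap k[X] K (C c)) x = 0)
    (h2 : ∀ P : k[X], P.Monic → Irreducible P → SS k (algebraMap k[X] K P) x = 0) (f : k[X])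
    (hf : f ≠ 0) : SS k (algebraMap k[X] K f) x = 0 := by
  revert hf
  refine UniqueFactorizationMonoid.induction_on_prime f (fun h => absurd rfl h) ?_ ?_
  · intro u hu _
    obtain ⟨c, hc, rfl⟩ := isUnit_iff.1 hu
    exact h1 c hc.ne_zero
  · intro a p ha hp ih _
    have ha' : algebraMap k[X] K a ≠ 0 := by simpa using ha
    have hp' : algebraMap k[X] K p ≠ 0 := by simpa using hp.ne_zero
    rw [map_mul, SS_mul hk hm hp' ha' hx, ih ha, add_zero]
    have hl : p.leadingCoeff ≠ 0 := leadingCoeff_ne_zero.2 hp.ne_zero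
    have e : p = C p.leadingCoeff * (p * C p.leadingCoeff⁻¹) := by
      rw [mul_comm p, ← mul_assoc, ← C_mul, mul_inv_cancel₀ hl, C_1, one_mul]
    have hmon := monic_mul_leadingCoeff_inv hp.ne_zero
    have hirr : Irreducible (p * C p.leadingCoeff⁻¹) := by
      have hu : IsUnit (C p.leadingCoeff⁻¹) := isUnit_C.2 (isUnit_iff_ne_zero.2 (inv_ne_zero hl))
      obtain ⟨u, hu'⟩ := hu
      have ha : Associated p (p * C p.leadingCoeff⁻¹) := ⟨u, by rw [hu']⟩
      exact ha.irreducible hp.irreducible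
    rw [e, map_mul, SS_mul hk hm (by simpa using hl) (by simpa using hmon.ne_zero) hx, h1 _ hl,
      h2 _ hmon hirr, add_zero]

include hk hm in
/-- **the reciprocity law** -/
theorem SS_zero {x y : K} (hx : x ≠ 0) (hy : y ≠ 0) : SS k x y = 0 := by
  obtain ⟨f, hf, sf⟩ := exists_poly (k := k) hx
  obtain ⟨g, hg, sg⟩ := exists_poly (k := k) hy
  have hf' : algebraMap k[X] K f ≠ 0 := by simpa using hf
  have hg' : algebraMap k[X] K g ≠ 0 := by simpa using hg
  have e : SS k x y = SS k (algebraMap k[X] K f) (algebraMap k[X] K g) := by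
    unfold SS
    rw [ki_congr hk hm hf' sf, ki_congr hk hm hg' sg]
    congr 1
    exact finsum_congr fun v => by rw [kv_congr hk hm v hf' sf, kv_congr hk hm v hg' sg]
  rw [e]
  have hC : ∀ c : k, c ≠ 0 → ∀ g : k[X], g ≠ 0 →
      SS k (algebraMap k[X] K (C c)) (algebraMap k[X] K g) = 0 := by
    intro c hc g hg
    rw [SS_comm]
    exact SS_poly_aux hk hm _ (by simpa using hc)
      (fun d hd => SS_C_C hk hm hd hc)
      (fun P hP hi => by rw [SS_comm]; exact SS_C_P hk hm hc hP hi) g hg
  refine SS_poly_aux hk hm _ hg' (fun c hc => hC c hc g hg) (fun P hP hi => ?_) f hf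
  rw [SS_comm]
  exact SS_poly_aux hk hm _ (by simpa using hP.ne_zero) (fun c hc => SS_C_P hk hm hc hP hi)
    (fun Q hQ hj => SS_P_P hk hm hQ hj hP hi) g hg

/-- a nonsquare constant -/
theorem exists_nonsq (hk : ringChar k ≠ 2) : ∃ ε : k, ε ≠ 0 ∧ ch ε = 1 := by
  obtain ⟨ε, hε⟩ := FiniteField.exists_nonsquare hk
  have h0 : ε ≠ 0 := by
    rintro rfl
    exact hε ⟨0, by simp⟩
  have hF : ∀ a : F2, a ≠ 0 → a = 1 := by decide
  exact ⟨ε, h0, hF _ fun h => hε ((ch_eq_zero_iff h0).1 h)⟩

include hk hm in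
/-- **duality**: a family of local classes orthogonal to the classes of `K` is the family of a class
of `K` -/
theorem dual (c : ∀ v : HeightOneSpectrum k[X], Comp k[X] K v) (hc : ∀ v, c v ≠ 0)
    (c' : CompInf k K) (hc' : c' ≠ 0)
    (hfin : {v : HeightOneSpectrum k[X] | ¬ IsSquare (wv v (c v))}.Finite)
    (h : ∀ e : K, e ≠ 0 → ∑ᶠ v : HeightOneSpectrum k[X], om (cv v (c v)) (kv v e) +
      om (ci c') (ki k e) = 0) :
    ∃ u : K, u ≠ 0 ∧ (∀ v, IsSquare (c v * algebraMap K (Comp k[X] K v) u)) ∧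
      IsSquare (c' * algebraMap K (CompInf k K) u) := by
  set g : k[X] := ∏ v ∈ hfin.toFinset, gn v with hg
  have hg0 : g ≠ 0 := prod_ne_zero_iff.2 fun v _ => (gn_irr v).ne_zero
  have hgK : algebraMap k[X] K g ≠ 0 := by simpa using hg0
  have hZ : {v : HeightOneSpectrum k[X] | (cv v (c v)).1 ≠ 0}.Finite := by
    refine hfin.subset fun v hv => ?_
    rw [Set.mem_setOf_eq, cv_fst] at hv
    intro h'
    exact hv (if_pos h')
  -- the parities of `g`
  have hpar : ∀ v, (kv v (algebraMap k[X] K g)).1 = (cv v (c v)).1 := by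
    intro v
    rw [cv_fst]
    by_cases hv : IsSquare (wv v (c v))
    · rw [if_pos hv, kv_poly hk v]
      intro hd
      rw [hg, (gn_irr v).prime.dvd_finset_prod_iff] at hd
      obtain ⟨v', hv', hd⟩ := hd
      have := gn_inj (eq_of_monic_of_associated (gn_monic v) (gn_monic v')
        ((gn_irr v).associated_of_dvd (gn_irr v') hd))
      rw [← this, Set.Finite.mem_toFinset] at hv'
      exact hv' hv
    · have hmem : v ∈ hfin.toFinset := (Set.Finite.mem_toFinset _).2 hv
      rw [if_neg hv, hg, ← mul_prod_erase _ _ hmem]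
      have h1 : ∏ v' ∈ hfin.toFinset.erase v, gn v' ≠ 0 :=
        prod_ne_zero_iff.2 fun v' _ => (gn_irr v').ne_zero
      have h1' : algebraMap k[X] K (∏ v' ∈ hfin.toFinset.erase v, gn v') ≠ 0 := by
        rw [Ne, IsFractionRing.to_map_eq_zero_iff]
        exact h1
      rw [map_mul, kv_mul hk hm v (by simpa using (gn_irr v).ne_zero) h1', kv_gn,
        kv_poly hk v]
      · rfl
      · intro hd
        rw [(gn_irr v).prime.dvd_finset_prod_iff] at hd
        obtain ⟨v', hv', hd⟩ := hd
        have := gn_inj (eq_of_monic_of_associated (gn_monic v) (gn_monic v')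
          ((gn_irr v).associated_of_dvd (gn_irr v') hd))
        exact ne_of_mem_erase hv' this.symm
  set a : HeightOneSpectrum k[X] → W := fun v => cv v (c v) + kv v (algebraMap k[X] K g) with ha
  set a' : W := ci c' + ki k (algebraMap k[X] K g) with ha'
  have ha1 : ∀ v, (a v).1 = 0 := fun v => by
    show (cv v (c v)).1 + (kv v (algebraMap k[X] K g)).1 = 0
    rw [hpar]
    exact F2_add_self _
  have horth : ∀ e : K, e ≠ 0 →
      ∑ᶠ v : HeightOneSpectrum k[X], om (a v) (kv v e) + om a' (ki k e) = 0 := by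
    intro e he
    have h1 := h e he
    have h2 := SS_zero hk hm hgK he
    have s1 : (Function.support fun v : HeightOneSpectrum k[X] => om (cv v (c v)) (kv v e)).Finite :=
      (hZ.union (fin_kv hk hm he)).subset fun v hv => om_ne hv
    have e1 : (fun v => om (a v) (kv v e)) = fun v => om (cv v (c v)) (kv v e) +
        om (kv v (algebraMap k[X] K g)) (kv v e) := by
      funext v
      rw [ha, om_add_left]
    rw [finsum_congr (congrFun e1), finsum_add_distrib s1 (fin_om hk hm hgK he), ha', om_add_left]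
    unfold SS at h2
    linear_combination h1 + h2
  obtain ⟨ε, hε0, hε⟩ := exists_nonsq hk
  -- the first component at infinity
  have hi1 : a'.1 = 0 := by
    have h1 := horth (algebraMap k[X] K (C ε)) (by simpa using hε0)
    rw [finsum_congr (g := fun _ => 0) fun v => ?_, finsum_zero, zero_add, ki_C hk hε0, om, hε,
      mul_one, mul_zero, add_zero] at h1
    · exact h1
    · rw [kv_poly hk v (not_dvd_C v hε0), om, ha1, zero_mul, mul_zero, add_zero]
  -- the second component at the finite places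
  have hfv : ∀ v, (a v).2 = a'.2 * ((gn v).natDegree : F2) := by
    intro v
    have h1 := horth (algebraMap k[X] K (gn v)) (by simpa using (gn_irr v).ne_zero)
    rw [finsum_eq_single _ v fun v' hv' => ?_, kv_gn, ki_monic hk (gn_monic v), om, om, ha1,
      mul_one, mul_zero, mul_zero, zero_add, zero_add] at h1
    · exact F2_eq_of_add h1
    · have h3 : ¬ gn v' ∣ gn v := fun hd =>
        hv' (gn_inj (eq_of_monic_of_associated (gn_monic v') (gn_monic v)
          ((gn_irr v').associated_of_dvd (gn_irr v) hd)))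
      rw [kv_poly hk v' h3, om, ha1, zero_mul, mul_zero, add_zero]
  have hF : ∀ a : F2, a = 0 ∨ a = 1 := by decide
  have hca : ∀ v, cv v (c v * algebraMap K (Comp k[X] K v) (algebraMap k[X] K g)) = a v := fun v =>
    cv_mul hk hm v (hc v) ((_root_.map_ne_zero (algebraMap K (Comp k[X] K v))).2 hgK)
  have hca' : ci (c' * algebraMap K (CompInf k K) (algebraMap k[X] K g)) = a' :=
    ci_mul hk hm hc' ((_root_.map_ne_zero (algebraMap K (CompInf k K))).2 hgK)
  rcases hF a'.2 with h0 | h0
  · refine ⟨algebraMap k[X] K g, hgK, fun v => (cv_zero v).1 ?_, ci_zero.1 ?_⟩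
    · rw [hca]
      exact Prod.ext (ha1 v) (by rw [hfv, h0, zero_mul]; rfl)
    · rw [hca']
      exact Prod.ext hi1 h0
  · have hεK : algebraMap k[X] K (C ε) ≠ 0 := by simpa using hε0
    refine ⟨algebraMap k[X] K g * algebraMap k[X] K (C ε), mul_ne_zero hgK hεK,
      fun v => (cv_zero v).1 ?_, ci_zero.1 ?_⟩
    · rw [map_mul, ← mul_assoc, cv_mul hk hm v (mul_ne_zero (hc v) ((_root_.map_ne_zero _).2 hgK))
        ((_root_.map_ne_zero _).2 hεK), hca]
      have e3 : cv v (algebraMap K (Comp k[X] K v) (algebraMap k[X] K (C ε))) = (0, L (C ε) (gn v)) :=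
        kv_poly hk v (not_dvd_C v hε0)
      rw [e3, L_C hε0, hε, mul_one]
      refine Prod.ext ?_ ?_
      · show (a v).1 + 0 = 0
        rw [ha1, add_zero]
      · show (a v).2 + _ = 0
        rw [hfv, h0, one_mul]
        exact F2_add_self _
    · rw [map_mul, ← mul_assoc, ci_mul hk hm (mul_ne_zero hc' ((_root_.map_ne_zero _).2 hgK))
        ((_root_.map_ne_zero _).2 hεK), hca']
      have e3 : ci (algebraMap K (CompInf k K) (algebraMap k[X] K (C ε))) = (0, ch ε) := ki_C hk hε0
      rw [e3, hε]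
      refine Prod.ext ?_ ?_
      · show a'.1 + 0 = 0
        rw [hi1, add_zero]
      · show a'.2 + 1 = 0
        rw [h0]
        decide

end

end Pool.Agent.V8H26.ZC
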