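import Pool.Agent.V8H26.XA.Loc
import Pool.Agent.V8H26.ZC.Def

/-!
# The quadratic Hilbert symbol over the completions of `k(t)`
-/

set_option autoImplicit false
set_option linter.all false

open Polynomial IsDedekindDomain
open scoped Classical

namespace Pool.Agent.V8H26.ZC

open Pool.Agent.TH115.GD Pool.Agent.H341R2.Sharp Finset Pool.Agent.Y164.PS
open Pool.Agent.W309.TD (isSquare_coe sq_of_nonsq IsSquare.of_mul_left')

section abs

variable {L : Type} [Field L]

/-- what is used about the local field -/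
structure LF (w : Valuation L (WithZero (Multiplicative ℤ))) : Prop where
  hens : Hens w
  neg : IsSquare (-1 : L)
  two : (2 : L) ≠ 0
  ns : ∀ x y : L, x ≠ 0 → y ≠ 0 → IsSquare (w x) → IsSquare (w y) → ¬ IsSquare x → ¬ IsSquare y →
    IsSquare (x * y)

variable {w : Valuation L (WithZero (Multiplicative ℤ))}

theorem sqv_of_sq {x : L} (h : IsSquare x) : IsSquare (w x) := by
  obtain ⟨y, rfl⟩ := h
  exact ⟨w y, by rw [map_mul]⟩

theorem sqv_mul {x y : L} (h : IsSquare (w x)) (h' : IsSquare (w y)) : IsSquare (w (x * y)) := by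
  rw [map_mul]
  exact h.mul h'

theorem sqv_of {x y : L} (hx : x ≠ 0) (h : IsSquare (w x)) (h' : IsSquare (w (x * y))) :
    IsSquare (w y) := by
  have hw : w x ≠ 0 := (Valuation.ne_zero_iff _).2 hx
  have e : w y = w (x * y) * (w x)⁻¹ := by
    rw [map_mul, mul_comm (w x), mul_assoc, mul_inv_cancel₀ hw, mul_one]
  rw [e]
  exact h'.mul (by obtain ⟨z, hz⟩ := h; exact ⟨z⁻¹, by rw [hz, mul_inv]⟩)

theorem nsqv_mul {x y : L} (h : ¬ IsSquare (w x)) (h' : ¬ IsSquare (w y)) :
    IsSquare (w (x * y)) := by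
  rw [map_mul]
  exact sq_of_nonsq h h'

theorem isSq_mul_iff {x y : L} (hx : x ≠ 0) (h : IsSquare x) : IsSquare (x * y) ↔ IsSquare y := by
  constructor
  · intro h'
    have e : y = x * y * x⁻¹ := by field_simp
    rw [e]
    exact h'.mul (by obtain ⟨z, hz⟩ := h; exact ⟨z⁻¹, by rw [hz, mul_inv]⟩)
  · exact fun h' => h.mul h'

/-- the class of an element modulo squares; `p` is an element of odd valuation -/
noncomputable def th (w : Valuation L (WithZero (Multiplicative ℤ))) (p x : L) : W :=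
  if IsSquare (w x) then (0, if IsSquare x then 0 else 1) else (1, if IsSquare (x * p) then 0 else 1)

theorem th_even {p x : L} (h : IsSquare (w x)) : th w p x = (0, if IsSquare x then 0 else 1) :=
  if_pos h

theorem th_odd {p x : L} (h : ¬ IsSquare (w x)) :
    th w p x = (1, if IsSquare (x * p) then 0 else 1) := if_neg h

theorem th_fst {p x : L} : (th w p x).1 = if IsSquare (w x) then 0 else 1 := by
  unfold th
  split_ifs <;> rfl

theorem th_zero_iff {p x : L} : th w p x = 0 ↔ IsSquare x := by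
  by_cases h : IsSquare (w x)
  · rw [th_even h]
    by_cases h' : IsSquare x
    · rw [if_pos h']
      exact ⟨fun _ => h', fun _ => rfl⟩
    · rw [if_neg h']
      refine ⟨fun e => ?_, fun e => absurd e h'⟩
      exact absurd (congrArg Prod.snd e) (by decide)
  · rw [th_odd h]
    refine ⟨fun e => absurd (congrArg Prod.fst e) (by simp), fun e => absurd (sqv_of_sq e) h⟩

variable (hL : LF w) {p : L} (hp0 : p ≠ 0) (hp : ¬ IsSquare (w p))

include hL in
/-- the product of two elements of even valuation is a square if and only if both or none is -/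
theorem sq_mul_even {x y : L} (hx : x ≠ 0) (hy : y ≠ 0) (ex : IsSquare (w x))
    (ey : IsSquare (w y)) : IsSquare (x * y) ↔ (IsSquare x ↔ IsSquare y) := by
  by_cases h : IsSquare x
  · rw [isSq_mul_iff hx h]
    exact ⟨fun h' => ⟨fun _ => h', fun _ => h⟩, fun h' => h'.1 h⟩
  · by_cases h' : IsSquare y
    · rw [mul_comm, isSq_mul_iff hy h']
      exact ⟨fun h2 => absurd h2 h, fun h2 => h2.2 h'⟩
    · exact ⟨fun _ => ⟨fun h2 => absurd h2 h, fun h2 => absurd h2 h'⟩,
        fun _ => hL.ns x y hx hy ex ey h h'⟩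

theorem F2_ite (P Q R : Prop) [Decidable P] [Decidable Q] [Decidable R] (h : P ↔ (Q ↔ R)) :
    (if P then (0 : F2) else 1) = (if Q then 0 else 1) + (if R then 0 else 1) := by
  by_cases hQ : Q <;> by_cases hR : R
  · rw [if_pos hQ, if_pos hR, if_pos (h.2 ⟨fun _ => hR, fun _ => hQ⟩), add_zero]
  · rw [if_pos hQ, if_neg hR, if_neg (fun hP => hR ((h.1 hP).1 hQ)), zero_add]
  · rw [if_neg hQ, if_pos hR, if_neg (fun hP => hQ ((h.1 hP).2 hR)), add_zero]
  · rw [if_neg hQ, if_neg hR, if_pos (h.2 ⟨fun h' => absurd h' hQ, fun h' => absurd h' hR⟩)]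
    decide

include hL hp0 hp in
/-- the class is a homomorphism -/
theorem th_mul {x y : L} (hx : x ≠ 0) (hy : y ≠ 0) : th w p (x * y) = th w p x + th w p y := by
  by_cases ex : IsSquare (w x) <;> by_cases ey : IsSquare (w y)
  · rw [th_even ex, th_even ey, th_even (sqv_mul ex ey)]
    refine Prod.ext (by simp) ?_
    exact F2_ite _ _ _ (sq_mul_even hL hx hy ex ey)
  · have exy : ¬ IsSquare (w (x * y)) := fun h => ey (sqv_of hx ex h)
    rw [th_even ex, th_odd ey, th_odd exy]
    refine Prod.ext (by simp) ?_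
    refine F2_ite _ _ _ ?_
    rw [mul_assoc]
    exact sq_mul_even hL hx (mul_ne_zero hy hp0) ex (nsqv_mul ey hp)
  · have exy : ¬ IsSquare (w (x * y)) := fun h => ex (sqv_of hy ey (by rwa [mul_comm]))
    rw [th_odd ex, th_even ey, th_odd exy]
    refine Prod.ext (by simp) ?_
    refine F2_ite _ _ _ ?_
    have e : x * y * p = x * p * y := by ring
    rw [e]
    exact sq_mul_even hL (mul_ne_zero hx hp0) hy (nsqv_mul ex hp) ey
  · rw [th_odd ex, th_odd ey, th_even (nsqv_mul ex ey)]
    refine Prod.ext (by simp; decide) ?_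
    refine F2_ite _ _ _ ?_
    rw [← sq_mul_even hL (mul_ne_zero hx hp0) (mul_ne_zero hy hp0) (nsqv_mul ex hp)
      (nsqv_mul ey hp)]
    have e : x * p * (y * p) = p ^ 2 * (x * y) := by ring
    rw [e, isSq_mul_iff (pow_ne_zero 2 hp0) ⟨p, by ring⟩]

include hp0 in
theorem th_p (hp : ¬ IsSquare (w p)) : th w p p = (1, 0) := by
  rw [th_odd hp, if_pos ⟨p, rfl⟩]

theorem splits_of_sq_left {u e : L} (hu : u ≠ 0) (h : IsSquare u) : Splits u e := by
  obtain ⟨z, hz⟩ := h
  exact ⟨1, 0, z, Or.inl one_ne_zero, by rw [hz]; ring⟩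

theorem splits_of_sq_right {u e : L} (h : IsSquare e) : Splits u e := by
  obtain ⟨z, hz⟩ := h
  exact ⟨0, 1, z, Or.inr (Or.inl one_ne_zero), by rw [hz]; ring⟩

include hL in
/-- two elements whose product is a square -/
theorem splits_of_sq_mul {u e : L} (hu : u ≠ 0) (he : e ≠ 0) (h : IsSquare (u * e)) :
    Splits u e := by
  obtain ⟨z, hz⟩ := h
  obtain ⟨i, hi⟩ := hL.neg
  -- `e = u (z / u) ^ 2`
  have hz' : z ≠ 0 := by
    rintro rfl
    exact mul_ne_zero hu he (by rw [hz, mul_zero])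
  refine ⟨i * z, u, 0, Or.inr (Or.inl hu), ?_⟩
  linear_combination (u * z ^ 2) * hi - u * hz

theorem v_lt_or {a b : L} (h : w a ≠ w b) : w (a + b) = max (w a) (w b) :=
  Valuation.map_add_of_distinct_val w h

theorem sqv_sq (x : L) : IsSquare (w (x ^ 2)) := ⟨w x, by rw [map_pow, pow_two]⟩

include hL in
/-- a unit which is not a square and an element of odd valuation -/
theorem not_splits {u e : L} (hu : u ≠ 0) (he : e ≠ 0) (eu : IsSquare (w u))
    (ee : ¬ IsSquare (w e)) (h : ¬ IsSquare u) : ¬ Splits u e := by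
  rintro ⟨x, y, z, hxyz, hz⟩
  have hy : y ≠ 0 := by
    rintro rfl
    rw [zero_pow two_ne_zero, mul_zero, add_zero] at hz
    by_cases hx : x = 0
    · rw [hx, zero_pow two_ne_zero, mul_zero] at hz
      rcases hxyz with h1 | h1 | h1
      · exact h1 hx
      · exact h1 rfl
      · exact h1 (pow_eq_zero_iff two_ne_zero |>.1 hz)
    · apply h
      refine ⟨z / x, ?_⟩
      field_simp
      rw [hz]
  have w1 : ¬ IsSquare (w (e * y ^ 2)) := fun h1 =>
    ee (sqv_of (pow_ne_zero 2 hy) (sqv_sq y) (by rwa [mul_comm]))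
  have e1 : z ^ 2 - u * x ^ 2 = e * y ^ 2 := by rw [hz]; ring
  have hey : e * y ^ 2 ≠ 0 := mul_ne_zero he (pow_ne_zero 2 hy)
  -- the valuations of `z ^ 2` and `u x ^ 2` are equal
  have w2 : w (z ^ 2) = w (u * x ^ 2) := by
    by_contra hne
    apply w1
    rw [← e1, sub_eq_add_neg, v_lt_or (by rwa [Valuation.map_neg]), Valuation.map_neg]
    rcases max_choice (w (z ^ 2)) (w (u * x ^ 2)) with h1 | h1
    · rw [h1]; exact sqv_sq z
    · rw [h1]; exact sqv_mul eu (sqv_sq x)
  have hx : x ≠ 0 := by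
    rintro rfl
    rw [zero_pow two_ne_zero, mul_zero, sub_zero] at e1
    apply w1
    rw [← e1]
    exact sqv_sq z
  have hz0 : z ≠ 0 := by
    rintro rfl
    rw [zero_pow two_ne_zero, map_zero] at w2
    exact mul_ne_zero hu (pow_ne_zero 2 hx) ((Valuation.zero_iff w).1 w2.symm)
  -- the difference is smaller
  have w3 : w (e * y ^ 2) ≤ w (u * x ^ 2) := by
    rw [← e1]
    refine (Valuation.map_sub w _ _).trans ?_
    rw [w2, max_self]
  have w4 : w (e * y ^ 2) < w (u * x ^ 2) := by
    refine lt_of_le_of_ne w3 fun h1 => w1 ?_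
    rw [h1]
    exact sqv_mul eu (sqv_sq x)
  have h5 : SqEq (z ^ 2) (u * x ^ 2) := near hL.hens (by rw [e1]; exact w4)
  obtain ⟨c, hc, e5⟩ := h5
  apply h
  refine ⟨z / (c * x), ?_⟩
  field_simp
  rw [e5]
  ring

include hL in
/-- two elements of odd valuation -/
theorem sq_of_splits_odd {u e : L} (hu : u ≠ 0) (he : e ≠ 0) (eu : ¬ IsSquare (w u))
    (ee : ¬ IsSquare (w e)) (h : Splits u e) : IsSquare (u * e) := by
  obtain ⟨x, y, z, hxyz, hz⟩ := h
  obtain ⟨i, hi⟩ := hL.neg
  have hi0 : i ≠ 0 := by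
    rintro rfl
    rw [mul_zero] at hi
    exact neg_ne_zero.2 one_ne_zero hi
  have o1 : ∀ {c s : L}, s ≠ 0 → ¬ IsSquare (w c) → ¬ IsSquare (w (c * s ^ 2)) := fun hs hc h1 =>
    hc (sqv_of (pow_ne_zero 2 hs) (sqv_sq _) (by rwa [mul_comm]))
  have hx : x ≠ 0 := by
    rintro rfl
    rw [zero_pow two_ne_zero, mul_zero, zero_add] at hz
    have hy : y ≠ 0 := by
      rintro rfl
      rw [zero_pow two_ne_zero, mul_zero] at hz
      rcases hxyz with h1 | h1 | h1
      · exact h1 rfl
      · exact h1 rfl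
      · exact h1 (pow_eq_zero_iff two_ne_zero |>.1 hz)
    exact o1 hy ee (hz ▸ sqv_sq z)
  have hy : y ≠ 0 := by
    rintro rfl
    rw [zero_pow two_ne_zero, mul_zero, add_zero] at hz
    exact o1 hx eu (hz ▸ sqv_sq z)
  have key : SqEq (e * y ^ 2) (-(u * x ^ 2)) := by
    by_cases hz0 : z = 0
    · refine ⟨1, one_ne_zero, ?_⟩
      rw [hz0] at hz
      linear_combination -hz
    · apply near hL.hens
      have e1 : e * y ^ 2 - -(u * x ^ 2) = z ^ 2 := by rw [hz]; ring
      rw [e1, Valuation.map_neg]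
      by_contra hle
      rw [not_lt] at hle
      have hlt : w (u * x ^ 2) < w (z ^ 2) := lt_of_le_of_ne hle fun h1 => o1 hx eu (h1 ▸ sqv_sq z)
      have h6 : w (e * y ^ 2) = w (z ^ 2) := by
        have e2 : e * y ^ 2 = z ^ 2 + -(u * x ^ 2) := by rw [hz]; ring
        rw [e2]
        have h7 : w (-(u * x ^ 2)) < w (z ^ 2) := by rwa [Valuation.map_neg]
        rw [v_lt_or (ne_of_gt h7), max_eq_left h7.le]
      exact o1 hy ee (h6 ▸ sqv_sq z)
  obtain ⟨c, hc, e7⟩ := key
  refine ⟨i * c * u * x / y, ?_⟩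
  have hy2 : y ^ 2 ≠ 0 := pow_ne_zero 2 hy
  rw [div_mul_div_comm, eq_div_iff (mul_ne_zero hy hy)]
  linear_combination u * e7 + (c ^ 2 * u ^ 2 * x ^ 2) * hi

include hL hp0 hp in
/-- **the Hilbert symbol is the symplectic form** -/
theorem inv_eq {x y : L} (hx : x ≠ 0) (hy : y ≠ 0) : inv x y = om (th w p x) (th w p y) := by
  unfold inv om
  by_cases ex : IsSquare (w x) <;> by_cases ey : IsSquare (w y)
  · rw [th_even ex, th_even ey]
    have : Splits x y := by
      by_cases h1 : IsSquare x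
      · exact splits_of_sq_left hx h1
      by_cases h2 : IsSquare y
      · exact splits_of_sq_right h2
      · exact splits_of_sq_mul hL hx hy (hL.ns x y hx hy ex ey h1 h2)
    rw [if_pos this]
    simp
  · rw [th_even ex, th_odd ey]
    by_cases h1 : IsSquare x
    · rw [if_pos (splits_of_sq_left hx h1), if_pos h1]
      simp
    · rw [if_neg (not_splits hL hx hy ex ey h1), if_neg h1]
      simp
  · rw [th_odd ex, th_even ey]
    by_cases h1 : IsSquare y
    · rw [if_pos (splits_of_sq_right h1), if_pos h1]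
      simp
    · have h2 : ¬ Splits x y := by
        rintro ⟨a, b, c, h3, h4⟩
        apply not_splits hL hy hx ey ex h1
        refine ⟨b, a, c, ?_, by rw [h4]; ring⟩
        tauto
      rw [if_neg h2, if_neg h1]
      simp
  · rw [th_odd ex, th_odd ey]
    have h1 : Splits x y ↔ IsSquare (x * y) :=
      ⟨sq_of_splits_odd hL hx hy ex ey, splits_of_sq_mul hL hx hy⟩
    have h2 : IsSquare (x * y) ↔ (IsSquare (x * p) ↔ IsSquare (y * p)) := by
      rw [← sq_mul_even hL (mul_ne_zero hx hp0) (mul_ne_zero hy hp0) (nsqv_mul ex hp)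
        (nsqv_mul ey hp)]
      have e : x * p * (y * p) = p ^ 2 * (x * y) := by ring
      rw [e, isSq_mul_iff (pow_ne_zero 2 hp0) ⟨p, by ring⟩]
    rw [F2_ite _ _ _ (h1.trans h2)]
    ring

end abs

end Pool.Agent.V8H26.ZC
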