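import Pool.Agent.V8H26.ZC.Glo
import Pool.Agent.V8H26.XA.Fin

/-!
# The local-global complex modulo 2 and the 2-Selmer group
-/

set_option autoImplicit false
set_option linter.all false

open Polynomial IsDedekindDomain WeierstrassCurve WeierstrassCurve.Affine
open scoped Classical

namespace Pool.Agent.V8H26.ZC

open Pool.Agent.TH115.GD Pool.Agent.H341R2.Sharp Finset Pool.Agent.Y164.PS
open Pool.Agent.V8H26.XA

section glob

variable {k K : Type} [Field k] [Fintype k] [DecidableEq k] [Field K] [Algebra k[X] K]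
  [IsFractionRing k[X] K]

/-- an element which is a square everywhere locally is a square -/
theorem sq_of_loc {u : K} (hu : u ≠ 0)
    (h : ∀ v : HeightOneSpectrum k[X], IsSquare (algebraMap K (Comp k[X] K v) u))
    (h' : IsSquare (algebraMap K (CompInf k K) u)) : IsSquare u := by
  have hcl : Pool.Agent.W309.TD.NoTwo k[X] := fun I _ => IsPrincipalIdealRing.principal I
  have h1 : ∀ v : HeightOneSpectrum k[X], IsSquare (v.valuation K u) := fun v => by
    rw [← wv_coe]
    exact sqv_of_sq (h v)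
  obtain ⟨w, s, hs, e⟩ := Pool.Agent.W309.TD.even_rep hcl hu h1
  obtain ⟨c, hc, hcw⟩ := isUnit_iff.1 w.isUnit
  rw [← hcw] at e
  have hsI : algebraMap K (CompInf k K) s ≠ 0 := (_root_.map_ne_zero _).2 hs
  have h3 : IsSquare (algebraMap K (CompInf k K) (algebraMap k[X] K (C c))) := by
    obtain ⟨z, hz⟩ := h'
    refine ⟨z / algebraMap K (CompInf k K) s, ?_⟩
    rw [e, map_mul, map_pow] at hz
    field_simp
    rw [hz]
    ring
  have h4 := (sq_inf (C_ne_zero.2 hc.ne_zero) h3).2
  rw [leadingCoeff_C] at h4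
  obtain ⟨b, hb⟩ := h4
  refine ⟨algebraMap k[X] K (C b) * s, ?_⟩
  rw [e, hb, C_mul, map_mul]
  ring

variable (hk : ringChar k ≠ 2) (hm : IsSquare (-1 : k))

theorem exists_nonsq_poly (hk : ringChar k ≠ 2) {P : k[X]} (hP : P.Monic) (hi : Irreducible P) :
    ∃ c : k[X], c ≠ 0 ∧ c.natDegree < P.natDegree ∧ ¬ P ∣ c ∧ L c P = 1 := by
  haveI : Fact (Irreducible P) := ⟨hi⟩
  haveI : Module.Finite k (AdjoinRoot P) := hP.finite_adjoinRoot
  haveI : Finite (AdjoinRoot P) := Module.finite_of_finite k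
  have hch : ringChar (AdjoinRoot P) ≠ 2 := by
    rw [← Algebra.ringChar_eq k (AdjoinRoot P)]
    exact hk
  obtain ⟨y, hy⟩ := FiniteField.exists_nonsquare hch
  obtain ⟨c, rfl⟩ := AdjoinRoot.mk_surjective y
  have e1 : AdjoinRoot.mk P (c %ₘ P) = AdjoinRoot.mk P c := by
    rw [AdjoinRoot.mk_eq_mk]
    have := modByMonic_add_div c P
    exact ⟨-(c /ₘ P), by linear_combination this⟩
  have hnd : ¬ P ∣ c %ₘ P := by
    intro hd
    apply hy
    rw [← e1, AdjoinRoot.mk_eq_zero.2 hd]
    exact ⟨0, by simp⟩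
  have h0 : c %ₘ P ≠ 0 := fun h => hnd (h ▸ dvd_zero _)
  have hF : ∀ a : F2, a ≠ 0 → a = 1 := by decide
  refine ⟨c %ₘ P, h0, natDegree_lt_natDegree h0 (degree_modByMonic_lt c hP), hnd, hF _ fun h => ?_⟩
  obtain ⟨z, hz⟩ := (L_eq_zero_iff hk hP hi hnd).1 h
  apply hy
  rw [← AdjoinRoot.mk_eq_mk] at hz
  refine ⟨AdjoinRoot.mk P z, ?_⟩
  rw [← e1, ← hz, map_pow, pow_two]

include hk hm in
/-- a family of degrees orthogonal to the constant algebras is constant modulo two -/
theorem const_parity (n : HeightOneSpectrum k[X] → F2) (n' : F2)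
    (h : ∀ c e : K, c ≠ 0 → e ≠ 0 → ∑ᶠ v : HeightOneSpectrum k[X], n v * om (kv v c) (kv v e) +
      n' * om (ki k c) (ki k e) = 0) (v : HeightOneSpectrum k[X]) : n v = n' := by
  suffices H : ∀ m : ℕ, ∀ v : HeightOneSpectrum k[X], (gn v).natDegree = m → n v = n' from
    H _ v rfl
  intro m
  induction m using Nat.strong_induction_on with
  | _ m ih =>
  intro v hv
  obtain ⟨c, hc0, hcd, hnd, hL⟩ := exists_nonsq_poly hk (gn_monic v) (gn_irr v)
  have hcK : algebraMap k[X] K c ≠ 0 := by simpa using hc0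
  have hgK : algebraMap k[X] K (gn v) ≠ 0 := by simpa using (gn_irr v).ne_zero
  have h1 := h _ _ hcK hgK
  have h2 := SS_zero hk hm hcK hgK
  unfold SS at h2
  have s1 : (Function.support fun v' : HeightOneSpectrum k[X] =>
      n v' * om (kv v' (algebraMap k[X] K c)) (kv v' (algebraMap k[X] K (gn v)))).Finite :=
    (fin_om hk hm hcK hgK).subset fun v' hv' hz => hv' (by
      show _ * _ = _
      rw [show om (kv v' (algebraMap k[X] K c)) (kv v' (algebraMap k[X] K (gn v))) = 0 from hz,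
        mul_zero])
  have s2 : (Function.support fun v' : HeightOneSpectrum k[X] =>
      n' * om (kv v' (algebraMap k[X] K c)) (kv v' (algebraMap k[X] K (gn v)))).Finite :=
    (fin_om hk hm hcK hgK).subset fun v' hv' hz => hv' (by
      show _ * _ = _
      rw [show om (kv v' (algebraMap k[X] K c)) (kv v' (algebraMap k[X] K (gn v))) = 0 from hz,
        mul_zero])
  have e1 : ∑ᶠ v' : HeightOneSpectrum k[X],
      (n v' + n') * om (kv v' (algebraMap k[X] K c)) (kv v' (algebraMap k[X] K (gn v))) = 0 := by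
    have e2 : (fun v' : HeightOneSpectrum k[X] =>
        (n v' + n') * om (kv v' (algebraMap k[X] K c)) (kv v' (algebraMap k[X] K (gn v)))) =
        fun v' => n v' * om (kv v' (algebraMap k[X] K c)) (kv v' (algebraMap k[X] K (gn v))) +
          n' * om (kv v' (algebraMap k[X] K c)) (kv v' (algebraMap k[X] K (gn v))) := by
      funext v'
      rw [add_mul]
    rw [finsum_congr (congrFun e2), finsum_add_distrib s1 s2,
      ← mul_finsum' _ _ (fin_om hk hm hcK hgK)]
    have h3 := F2_add_self (n' * om (ki k (algebraMap k[X] K c)) (ki k (algebraMap k[X] K (gn v))))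
    linear_combination h1 + n' * h2 - h3
  rw [finsum_eq_single _ v fun v' hv' => ?_] at e1
  · rw [kv_gn, kv_poly hk v hnd, hL] at e1
    have h4 : om ((0, 1) : W) (1, 0) = 1 := by decide
    rw [h4, mul_one] at e1
    exact F2_eq_of_add e1
  · by_cases hd : gn v' ∣ c
    · have h5 : (gn v').natDegree < m := by
        rw [← hv]
        exact (natDegree_le_of_dvd hd hc0).trans_lt hcd
      rw [ih _ h5 v' rfl, F2_add_self, zero_mul]
    · have h3 : ¬ gn v' ∣ gn v := fun hd =>
        hv' (gn_inj (eq_of_monic_of_associated (gn_monic v') (gn_monic v)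
          ((gn_irr v').associated_of_dvd (gn_irr v) hd)))
      rw [kv_poly hk v' hd, kv_poly hk v' h3]
      simp [om]

end glob

section crv

variable {k K : Type} [Field k] [Fintype k] [DecidableEq k] [Field K] [Algebra k[X] K]
  [IsFractionRing k[X] K]
variable (hk : ringChar k ≠ 2) (hm : IsSquare (-1 : k)) {A B : k[X]} (hA : A ≠ 0) (hB : B ≠ 0)
  (hAB : A ≠ B)

/-- the two classes -/
noncomputable def e0 (α β : K) (L : Type) [Field L] [Algebra K L] (P : Pt (crv α β) L) : L :=
  d0 (algebraMap K L α) (algebraMap K L β) P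

noncomputable def e1 (α β : K) (L : Type) [Field L] [Algebra K L] (P : Pt (crv α β) L) : L :=
  d1 (algebraMap K L α) (algebraMap K L β) P

structure HK (α β : K) : Prop where
  two : (2 : K) ≠ 0
  a : α ≠ 0
  b : β ≠ 0
  ab : α ≠ β

include hk hA hB hAB in
theorem hK : HK (algebraMap k[X] K A) (algebraMap k[X] K B) :=
  ⟨tt (Ring.two_ne_zero hk), by simpa using hA, by simpa using hB,
    fun h => hAB (IsFractionRing.injective k[X] K h)⟩

variable {α β : K}

theorem e0_ne (h : HK α β) (L : Type) [Field L] [Algebra K L] (P : Pt (crv α β) L) :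
    e0 α β L P ≠ 0 := d0_ne (isE α β L h.two h.a h.b h.ab) P

theorem e1_ne (h : HK α β) (L : Type) [Field L] [Algebra K L] (P : Pt (crv α β) L) :
    e1 α β L P ≠ 0 := d1_ne (isE α β L h.two h.a h.b h.ab) P

theorem e_add (h : HK α β) (L : Type) [Field L] [Algebra K L] (P Q : Pt (crv α β) L) :
    SqEq (e0 α β L (P + Q)) (e0 α β L P * e0 α β L Q) ∧
    SqEq (e1 α β L (P + Q)) (e1 α β L P * e1 α β L Q) := by
  obtain ⟨u0, u1, m0, m1, f0, f1⟩ := d_add (K := K) (F := L) (Ω := Sep L)
    (crv α β) (isE α β (Sep L) h.two h.a h.b h.ab) P Q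
  exact ⟨⟨u0, m0, f0⟩, ⟨u1, m1, f1⟩⟩

/-- two points with the same classes are congruent modulo two -/
theorem congr_of_sq (h : HK α β) (L : Type) [Field L] [Algebra K L] (P Q : Pt (crv α β) L)
    (h0 : IsSquare (e0 α β L P * e0 α β L Q)) (h1 : IsSquare (e1 α β L P * e1 α β L Q)) :
    ∃ R : Pt (crv α β) L, R + R = P - Q := by
  have key : ∀ x : Pt (crv α β) L, SqEq (e0 α β L (x + x)) 1 ∧ SqEq (e1 α β L (x + x)) 1 := by
    intro x
    obtain ⟨f0, f1⟩ := e_add h L x x
    have g0 : SqEq (e0 α β L x * e0 α β L x) 1 := by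
      rw [← pow_two]
      exact SqEq.sq (e0_ne h L x)
    have g1 : SqEq (e1 α β L x * e1 α β L x) 1 := by
      rw [← pow_two]
      exact SqEq.sq (e1_ne h L x)
    exact ⟨f0.trans g0, f1.trans g1⟩
  have hsq : ∀ {x : L}, x ≠ 0 → IsSquare x → SqEq x 1 := by
    intro x hx hs
    obtain ⟨s, rfl⟩ := hs
    have hs0 : s ≠ 0 := left_ne_zero_of_mul hx
    exact ⟨s, hs0, by ring⟩
  -- `P - Q = (P + Q) - 2 Q`
  have f := e_add h L (P + Q) (-(Q + Q))
  have g := e_add h L P Q
  have n := key (-Q)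
  have e : -Q + -Q = -(Q + Q) := by abel
  rw [e] at n
  have e' : P + Q + -(Q + Q) = P - Q := by abel
  rw [e'] at f
  have s0 : SqEq (e0 α β L (P - Q)) 1 := by
    refine f.1.trans ?_
    have := (g.1.trans (hsq (mul_ne_zero (e0_ne h L P) (e0_ne h L Q)) h0)).mul n.1
    rwa [mul_one] at this
  have s1 : SqEq (e1 α β L (P - Q)) 1 := by
    refine f.2.trans ?_
    have := (g.2.trans (hsq (mul_ne_zero (e1_ne h L P) (e1_ne h L Q)) h1)).mul n.2
    rwa [mul_one] at this
  exact half_F h.two h.a h.b h.ab (P - Q) s0 s1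

/-- the classes of congruent points -/
theorem sq_of_congr (h : HK α β) (L : Type) [Field L] [Algebra K L] (P Q R : Pt (crv α β) L)
    (e : R + R = P - Q) : IsSquare (e0 α β L P * e0 α β L Q) ∧
      IsSquare (e1 α β L P * e1 α β L Q) := by
  have eP : P = Q + (R + R) := by rw [e]; abel
  have f := e_add h L Q (R + R)
  have g := e_add h L R R
  rw [← eP] at f
  have sq : ∀ {x y z w : L}, SqEq x (y * z) → SqEq z (w * w) → IsSquare (x * y) := by
    intro x y z w h1 h2
    obtain ⟨c, hc, rfl⟩ := h1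
    obtain ⟨d, hd, rfl⟩ := h2
    exact ⟨c * y * d * w, by ring⟩
  exact ⟨sq f.1 g.1, sq f.2 g.2⟩

/-- classes modulo two -/
theorem mk_eq_iff (L : Type) [Field L] [Algebra K L] (z z' : CH0 α β L) :
    ((z : CH0ModTwo α β L) = (z' : CH0ModTwo α β L)) ↔
      (z.1 : F2) = (z'.1 : F2) ∧ ∃ R : Pt (crv α β) L, R + R = z'.2 - z.2 := by
  rw [QuotientAddGroup.eq]
  constructor
  · rintro ⟨⟨n, R⟩, e⟩
    have e1 : 2 • n = -z.1 + z'.1 := congrArg Prod.fst e
    have e2 : 2 • R = -z.2 + z'.2 := congrArg Prod.snd e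
    refine ⟨?_, R, ?_⟩
    · have h3 := congrArg (fun m : ℤ => (m : F2)) e1
      simp only [nsmul_eq_mul] at h3
      push_cast at h3
      have h2 : (2 : F2) = 0 := by decide
      rw [h2, zero_mul] at h3
      have h4 : ∀ a b : F2, 0 = -a + b → a = b := by decide
      exact h4 _ _ h3
    · rw [two_nsmul] at e2
      rw [e2]
      abel
  · rintro ⟨h1, R, h2⟩
    have h3 : ((z'.1 - z.1 : ℤ) : F2) = 0 := by
      push_cast
      rw [h1, sub_self]
    obtain ⟨n, hn⟩ := (ZMod.intCast_zmod_eq_zero_iff_dvd _ 2).1 h3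
    refine ⟨(n, R), Prod.ext ?_ ?_⟩
    · show 2 • n = -z.1 + z'.1
      rw [nsmul_eq_mul]
      push_cast at hn ⊢
      linarith
    · show 2 • R = -z.2 + z'.2
      rw [two_nsmul, h2]
      abel

/-! the pairing -/

include hk hm in
theorem pair_fin (h : HK α β) (v : HeightOneSpectrum k[X]) (T : BrauerClass K)
    (z : CH0 α β (Comp k[X] K v)) :
    pairing α β (Comp k[X] K v) T z = (z.1 : F2) * om (kv v (T.c : K)) (kv v (T.c' : K)) +
      om (cv v (e0 α β (Comp k[X] K v) z.2)) (kv v (T.e : K)) +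
      om (cv v (e1 α β (Comp k[X] K v) z.2)) (kv v (T.f : K)) := by
  have hn : ∀ x : Kˣ, algebraMap K (Comp k[X] K v) (x : K) ≠ 0 := fun x =>
    (_root_.map_ne_zero _).2 x.ne_zero
  unfold pairing
  rw [inv_cv hk hm v (hn _) (hn _)]
  have a0 := inv_cv hk hm v (e0_ne h (Comp k[X] K v) z.2) (hn T.e)
  have a1 := inv_cv hk hm v (e1_ne h (Comp k[X] K v) z.2) (hn T.f)
  exact congrArg₂ (· + ·) (congrArg₂ (· + ·) rfl a0) a1

include hk hm in
theorem pair_inf (h : HK α β) (T : BrauerClass K) (z : CH0 α β (CompInf k K)) :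
    pairing α β (CompInf k K) T z = (z.1 : F2) * om (ki k (T.c : K)) (ki k (T.c' : K)) +
      om (ci (e0 α β (CompInf k K) z.2)) (ki k (T.e : K)) +
      om (ci (e1 α β (CompInf k K) z.2)) (ki k (T.f : K)) := by
  have hn : ∀ x : Kˣ, algebraMap K (CompInf k K) (x : K) ≠ 0 := fun x =>
    (_root_.map_ne_zero _).2 x.ne_zero
  unfold pairing
  rw [inv_ci hk hm (hn _) (hn _)]
  have a0 := inv_ci hk hm (e0_ne h (CompInf k K) z.2) (hn T.e)
  have a1 := inv_ci hk hm (e1_ne h (CompInf k K) z.2) (hn T.f)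
  exact congrArg₂ (· + ·) (congrArg₂ (· + ·) rfl a0) a1

include hk hA hB hAB in
/-- the classes of the points have even valuation at almost all places -/
theorem fin_e (P : ∀ v : HeightOneSpectrum k[X],
      Pt (crv (algebraMap k[X] K A) (algebraMap k[X] K B)) (Comp k[X] K v)) :
    {v : HeightOneSpectrum k[X] | ¬ IsSquare (wv v
      (e0 (algebraMap k[X] K A) (algebraMap k[X] K B) (Comp k[X] K v) (P v)))}.Finite ∧
    {v : HeightOneSpectrum k[X] | ¬ IsSquare (wv v
      (e1 (algebraMap k[X] K A) (algebraMap k[X] K B) (Comp k[X] K v) (P v)))}.Finite := by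
  have h := hK (K := K) hk hA hB hAB
  have hprod : A * B * (A - B) ≠ 0 := mul_ne_zero (mul_ne_zero hA hB) (sub_ne_zero.2 hAB)
  have key : ∀ v : HeightOneSpectrum k[X], ¬ gn v ∣ A * B * (A - B) →
      wv v (algebraMap K (Comp k[X] K v) (algebraMap k[X] K A)) = 1 ∧
      wv v (algebraMap K (Comp k[X] K v) (algebraMap k[X] K B)) = 1 ∧
      wv v (algebraMap K (Comp k[X] K v) (algebraMap k[X] K A) -
        algebraMap K (Comp k[X] K v) (algebraMap k[X] K B)) = 1 := by
    intro v hv
    rw [← map_sub, ← map_sub, wv_coe, wv_coe, wv_coe, valK_one, valK_one, valK_one, mem_gn, mem_gn,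
      mem_gn]
    exact ⟨fun hd => hv ((hd.mul_right _).mul_right _), fun hd => hv ((hd.mul_left _).mul_right _),
      fun hd => hv (hd.mul_left _)⟩
  constructor
  · refine (fin_dvd hprod).subset fun v hv => ?_
    by_contra hd
    obtain ⟨k1, k2, k3⟩ := key v hd
    exact hv (loc0 (isE _ _ (Comp k[X] K v) h.two h.a h.b h.ab) ⟨1, by simp⟩ one_ne_zero k1 k2 (P v))
  · refine (fin_dvd hprod).subset fun v hv => ?_
    by_contra hd
    obtain ⟨k1, k2, k3⟩ := key v hd
    exact hv (loc1 (isE _ _ (Comp k[X] K v) h.two h.a h.b h.ab) ⟨1, by simp⟩ one_ne_zero k1 k2.le k3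
      (P v))

theorem kv_one (v : HeightOneSpectrum k[X]) : kv v (1 : K) = 0 :=
  (cv_zero v).2 ⟨1, by rw [map_one]; ring⟩

theorem ki_one : ki k (1 : K) = 0 := ci_zero.2 ⟨1, by rw [map_one]; ring⟩

theorem fin_mul {f g : HeightOneSpectrum k[X] → F2} (h : (Function.support g).Finite) :
    (Function.support fun v => f v * g v).Finite :=
  h.subset fun v hv hz => hv (by
    show _ * _ = _
    rw [show g v = 0 from hz, mul_zero])

include hk hm hA hB hAB in
/-- the sum of the local invariants is finite -/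
theorem fin_support (z : Adelic k (algebraMap k[X] K A) (algebraMap k[X] K B))
    (T : BrauerClass K) : (z.support T).Finite := by
  have h := hK (K := K) hk hA hB hAB
  obtain ⟨f0, f1⟩ := fin_e hk hA hB hAB fun v => (z.fin v).2
  have g := (((fin_kv hk hm T.c.ne_zero).union (fin_kv hk hm T.c'.ne_zero)).union
    (f0.union (fin_kv hk hm T.e.ne_zero))).union (f1.union (fin_kv hk hm T.f.ne_zero))
  refine g.subset fun v hv => ?_
  by_contra hn
  simp only [Set.mem_union, Set.mem_setOf_eq, not_or, not_not] at hn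
  obtain ⟨⟨⟨n1, n2⟩, n3, n4⟩, n5, n6⟩ := hn
  apply hv
  rw [pair_fin hk hm h, om, om, om, n1, n2, n4, n6, cv_fst, cv_fst, if_pos n3, if_pos n5]
  ring

include hk hm hA hB hAB in
/-- the pairing of a family -/
theorem pairing_eq (z : Adelic k (algebraMap k[X] K A) (algebraMap k[X] K B)) (T : BrauerClass K) :
    z.pairing T =
      (∑ᶠ v : HeightOneSpectrum k[X], ((z.fin v).1 : F2) * om (kv v (T.c : K)) (kv v (T.c' : K)) +
        (z.inf.1 : F2) * om (ki k (T.c : K)) (ki k (T.c' : K))) +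
      (∑ᶠ v : HeightOneSpectrum k[X],
        om (cv v (e0 _ _ (Comp k[X] K v) (z.fin v).2)) (kv v (T.e : K)) +
        om (ci (e0 _ _ (CompInf k K) z.inf.2)) (ki k (T.e : K))) +
      (∑ᶠ v : HeightOneSpectrum k[X],
        om (cv v (e1 _ _ (Comp k[X] K v) (z.fin v).2)) (kv v (T.f : K)) +
        om (ci (e1 _ _ (CompInf k K) z.inf.2)) (ki k (T.f : K))) := by
  have h := hK (K := K) hk hA hB hAB
  obtain ⟨f0, f1⟩ := fin_e hk hA hB hAB fun v => (z.fin v).2
  have s1 : (Function.support fun v : HeightOneSpectrum k[X] =>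
      ((z.fin v).1 : F2) * om (kv v (T.c : K)) (kv v (T.c' : K))).Finite :=
    fin_mul (fin_om hk hm T.c.ne_zero T.c'.ne_zero)
  have s2 : (Function.support fun v : HeightOneSpectrum k[X] =>
      om (cv v (e0 _ _ (Comp k[X] K v) (z.fin v).2)) (kv v (T.e : K))).Finite := by
    refine (f0.union (fin_kv hk hm T.e.ne_zero)).subset fun v hv => ?_
    rcases om_ne hv with h1 | h1
    · left
      intro h2
      rw [cv_fst] at h1
      exact h1 (if_pos h2)
    · exact Or.inr h1
  have s3 : (Function.support fun v : HeightOneSpectrum k[X] =>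
      om (cv v (e1 _ _ (Comp k[X] K v) (z.fin v).2)) (kv v (T.f : K))).Finite := by
    refine (f1.union (fin_kv hk hm T.f.ne_zero)).subset fun v hv => ?_
    rcases om_ne hv with h1 | h1
    · left
      intro h2
      rw [cv_fst] at h1
      exact h1 (if_pos h2)
    · exact Or.inr h1
  unfold Adelic.pairing
  rw [pair_inf hk hm h, finsum_congr (fun v => pair_fin hk hm h v T (z.fin v)),
    finsum_add_distrib ((s1.union s2).subset fun v hv => ?_) s3, finsum_add_distrib s1 s2]
  · ring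
  · by_contra hn
    rw [Set.mem_union, Function.mem_support, Function.mem_support, not_or, not_not, not_not] at hn
    apply hv
    show _ + _ = _
    rw [hn.1, hn.2, add_zero]

include hk hm hA hB hAB in
/-- **orthogonal families come from classes of `K`** -/
theorem of_orth (z : Adelic k (algebraMap k[X] K A) (algebraMap k[X] K B))
    (hz : ∀ T, z.pairing T = 0) :
    (∀ v, ((z.fin v).1 : F2) = (z.inf.1 : F2)) ∧
    ∃ x y : K, x ≠ 0 ∧ y ≠ 0 ∧
      (∀ v, IsSquare (e0 _ _ (Comp k[X] K v) (z.fin v).2 * algebraMap K (Comp k[X] K v) x)) ∧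
      (∀ v, IsSquare (e1 _ _ (Comp k[X] K v) (z.fin v).2 * algebraMap K (Comp k[X] K v) y)) ∧
      IsSquare (e0 _ _ (CompInf k K) z.inf.2 * algebraMap K (CompInf k K) x) ∧
      IsSquare (e1 _ _ (CompInf k K) z.inf.2 * algebraMap K (CompInf k K) y) := by
  have h := hK (K := K) hk hA hB hAB
  obtain ⟨f0, f1⟩ := fin_e hk hA hB hAB fun v => (z.fin v).2
  have o : ∀ (X : W), om X 0 = 0 := om_zero_right
  have z0 : ∑ᶠ _ : HeightOneSpectrum k[X], (0 : F2) = 0 := finsum_zero
  constructor
  · apply const_parity (K := K) hk hm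
    intro c e hc he
    have h1 := hz ⟨Units.mk0 c hc, Units.mk0 e he, 1, 1⟩
    rw [pairing_eq hk hm hA hB hAB] at h1
    simp only [Units.val_mk0, Units.val_one, kv_one, ki_one, o, z0, add_zero] at h1
    exact h1
  · obtain ⟨x, hx, x1, x2⟩ := dual hk hm (fun v => e0 _ _ (Comp k[X] K v) (z.fin v).2)
      (fun v => e0_ne h _ _) (e0 _ _ (CompInf k K) z.inf.2) (e0_ne h _ _) f0 (by
        intro e he
        have h1 := hz ⟨1, 1, Units.mk0 e he, 1⟩
        rw [pairing_eq hk hm hA hB hAB] at h1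
        simp only [Units.val_mk0, Units.val_one, kv_one, ki_one, o, z0, add_zero, mul_zero,
          zero_add] at h1
        exact h1)
    obtain ⟨y, hy, y1, y2⟩ := dual hk hm (fun v => e1 _ _ (Comp k[X] K v) (z.fin v).2)
      (fun v => e1_ne h _ _) (e1 _ _ (CompInf k K) z.inf.2) (e1_ne h _ _) f1 (by
        intro e he
        have h1 := hz ⟨1, 1, 1, Units.mk0 e he⟩
        rw [pairing_eq hk hm hA hB hAB] at h1
        simp only [Units.val_mk0, Units.val_one, kv_one, ki_one, o, z0, add_zero, mul_zero,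
          zero_add] at h1
        exact h1)
    exact ⟨x, y, hx, hy, x1, y1, x2, y2⟩

include hk hm hA hB hAB in
/-- **families which come from classes of `K` are orthogonal** -/
theorem orth_of (z : Adelic k (algebraMap k[X] K A) (algebraMap k[X] K B)) (n : F2)
    (h1 : ∀ v, ((z.fin v).1 : F2) = n) (h1' : (z.inf.1 : F2) = n) {x y : K} (hx : x ≠ 0)
    (hy : y ≠ 0)
    (x1 : ∀ v, IsSquare (e0 _ _ (Comp k[X] K v) (z.fin v).2 * algebraMap K (Comp k[X] K v) x))
    (y1 : ∀ v, IsSquare (e1 _ _ (Comp k[X] K v) (z.fin v).2 * algebraMap K (Comp k[X] K v) y))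
    (x2 : IsSquare (e0 _ _ (CompInf k K) z.inf.2 * algebraMap K (CompInf k K) x))
    (y2 : IsSquare (e1 _ _ (CompInf k K) z.inf.2 * algebraMap K (CompInf k K) y))
    (T : BrauerClass K) : z.pairing T = 0 := by
  have h := hK (K := K) hk hA hB hAB
  have W2 : ∀ X Y : W, X + Y = 0 → X = Y := by decide
  have c1 : ∀ v, cv v (e0 _ _ (Comp k[X] K v) (z.fin v).2) = kv v x := fun v => by
    apply W2
    have := (cv_zero v).2 (x1 v)
    rwa [cv_mul hk hm v (e0_ne h _ _) ((_root_.map_ne_zero _).2 hx)] at this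
  have c2 : ∀ v, cv v (e1 _ _ (Comp k[X] K v) (z.fin v).2) = kv v y := fun v => by
    apply W2
    have := (cv_zero v).2 (y1 v)
    rwa [cv_mul hk hm v (e1_ne h _ _) ((_root_.map_ne_zero _).2 hy)] at this
  have c3 : ci (e0 _ _ (CompInf k K) z.inf.2) = ki k x := by
    apply W2
    have := ci_zero.2 x2
    rwa [ci_mul hk hm (e0_ne h _ _) ((_root_.map_ne_zero _).2 hx)] at this
  have c4 : ci (e1 _ _ (CompInf k K) z.inf.2) = ki k y := by
    apply W2
    have := ci_zero.2 y2
    rwa [ci_mul hk hm (e1_ne h _ _) ((_root_.map_ne_zero _).2 hy)] at this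
  rw [pairing_eq hk hm hA hB hAB, c3, c4, h1',
    finsum_congr (fun v => show ((z.fin v).1 : F2) * om (kv v (T.c : K)) (kv v (T.c' : K)) =
      n * om (kv v (T.c : K)) (kv v (T.c' : K)) by rw [h1]),
    finsum_congr (fun v => show om (cv v (e0 _ _ (Comp k[X] K v) (z.fin v).2)) (kv v (T.e : K)) =
      om (kv v x) (kv v (T.e : K)) by rw [c1]),
    finsum_congr (fun v => show om (cv v (e1 _ _ (Comp k[X] K v) (z.fin v).2)) (kv v (T.f : K)) =
      om (kv v y) (kv v (T.f : K)) by rw [c2]),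
    ← mul_finsum' _ _ (fin_om hk hm T.c.ne_zero T.c'.ne_zero), ← mul_add]
  have r1 := SS_zero hk hm (k := k) T.c.ne_zero T.c'.ne_zero
  have r2 := SS_zero hk hm (k := k) hx T.e.ne_zero
  have r3 := SS_zero hk hm (k := k) hy T.f.ne_zero
  unfold SS at r1 r2 r3
  rw [r1, r2, r3]
  ring

end crv

end Pool.Agent.V8H26.ZC
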